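import Pool.Agent.R992.MC.Pair

/-!
# Exact regular differentials vanish
-/

set_option autoImplicit false
set_option linter.unusedSectionVars false

namespace Pool.Agent.R992.MC

open Polynomial

variable {K F L : Type} [Field K] [Field F] [Field L]
  [Algebra K[X] F] [IsFractionRing K[X] F] [Algebra F L] [Algebra K[X] L] [IsScalarTower K[X] F L]
  {m r p : ℕ} {S : Data K L m r}

namespace Data.Core

variable (H : Data.Core F p S)
include H

/-- the form of the key lemma used here -/
theorem key' (e : F) (he : InO K F S.t e) (k : ℤ) (h1 : Lo (-2 * k) (S.θ 0 (algebraMap F L e)))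
    (h2 : Lo (k + 1) (S.ψ 0 (algebraMap F L e))) : e = 0 :=
  key S.t ((S.θ 0).comp (algebraMap F L)) ((S.ψ 0).comp (algebraMap F L))
    (fun P => by rw [RingHom.comp_apply, htow, H.θ_P])
    (fun P => by rw [RingHom.comp_apply, htow, H.ψ_P]) e he k h1 h2

theorem coeff_E_iter (i : Fin (m + 2)) (z : L) (q : ℕ) :
    (S.θ i (S.E^[q] z)).coeff (-2 - 2 * q) = (-1) ^ q * (q.factorial : K) *
      (S.θ i z).coeff (-2) := by
  induction q generalizing z with
  | zero => simp
  | succ q ih =>
    have h2 := H.two_ne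
    rw [Function.iterate_succ_apply', H.θE,
      show (-2 - 2 * ((q + 1 : ℕ) : ℤ)) + 2 = -2 - 2 * (q : ℤ) by push_cast; ring, ih]
    rw [Nat.factorial_succ]
    push_cast
    field_simp
    ring

/-- **Pairing**: the leading coefficient of the trace form vanishes on exact regular forms. -/
theorem pairing (f g : L) (hf : S.Regular f) (hg : S.Regular g) (hf' : S.E^[p - 1] f = 0)
    (hg' : S.E^[p - 1] g = 0) :
    ∑ i, (S.θ i f).coeff (-1) * (S.θ i g).coeff (-1) = 0 := by
  have hp := H.prime.pos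
  obtain ⟨G, hG, hEG⟩ := H.exists_prim f (H.M_R f hf.fin) hf'
  obtain ⟨T, hT⟩ : ∃ T, T = S.Fc S.t f (p - 1) := ⟨_, rfl⟩
  have hET : S.E T = f := by rw [hT]; exact H.E_Fc' hf' S.t
  obtain ⟨e, he⟩ : ∃ e : F, e = Algebra.trace F L (S.E^[p - 1] (S.D T * g)) := ⟨_, rfl⟩
  -- regular outside `t`
  have h1 : InO K F S.t e := by
    have h2 : S.E^[p - 1] (S.D T * g) = S.E^[p - 1] (S.D G * g) := by
      have h3 : S.E (S.D (T - G)) = 0 := by
        rw [← H.comm, map_sub, hET, hEG, sub_self, map_zero]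
      have h4 := H.E_iter_const h3 g (p - 1)
      rw [hg', mul_zero, map_sub, sub_mul] at h4
      have h5 : ∀ (n : ℕ) (a b : L), S.E^[n] (a - b) = S.E^[n] a - S.E^[n] b := by
        intro n
        induction n with
        | zero => intro a b; rfl
        | succ n ih =>
          intro a b
          rw [Function.iterate_succ_apply, map_sub, ih, Function.iterate_succ_apply,
            Function.iterate_succ_apply]
      rw [h5] at h4
      exact sub_eq_zero.1 h4
    rw [he, h2]
    apply H.InO_E_iter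
    rw [mul_comm]
    exact H.M_tr g hg.fin _ (H.D_A G hG)
  have hθT : ∀ i, Lo 1 (S.θ i T) := fun i => by rw [hT]; exact H.θ_Fc (hf.at_t i) _
  have hθDT : ∀ i, Lo (-1) (S.θ i (S.D T)) := by
    intro i k hk
    rw [H.θ_D, hθT i k (by omega), map_zero, hET, hf.at_t i k hk, sub_zero]
  have hz : ∀ i, Lo (-2) (S.θ i (S.D T * g)) := by
    intro i
    rw [map_mul]
    exact ((hθDT i).mul (hg.at_t i)).mono (by norm_num)
  -- order at `t`
  have h2 : Lo (-2 * (p : ℤ)) (S.θ 0 (algebraMap F L e)) := by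
    rw [he, H.θ_tr]
    apply Lo.sum
    intro i _
    exact (H.θ_E_iter (hz i) (p - 1)).mono (by omega)
  -- order at infinity
  have h3 : Lo ((p : ℤ) + 1) (S.ψ 0 (algebraMap F L e)) := by
    rw [he, H.ψ_tr]
    apply Lo.sum
    intro i _
    have h4 : Lo 3 (S.ψ i (S.D T * g)) := by
      rw [map_mul]
      have h5 : Lo 1 (S.ψ i T) := by rw [hT]; exact H.ψ_Fc (hf.at_inf i) _
      exact ((H.ψ_D h5).mul (hg.at_inf i)).mono (by norm_num)
    exact (H.ψ_E_iter h4 (p - 1)).mono (by omega)
  have h4 := H.key' e h1 p h2 h3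
  have h5 := congrArg (fun e => (S.θ 0 (algebraMap F L e)).coeff (-2 - 2 * ((p - 1 : ℕ) : ℤ))) h4
  simp only [map_zero, HahnSeries.coeff_zero] at h5
  rw [he, H.θ_tr, HahnSeries.coeff_sum, Finset.sum_congr rfl fun i _ => H.coeff_E_iter i _ _,
    ← Finset.mul_sum] at h5
  have h6 : (-1 : K) ^ (p - 1) * ((p - 1).factorial : K) ≠ 0 :=
    mul_ne_zero (pow_ne_zero _ (by norm_num)) (H.fact_ne (by omega))
  have h7 := (mul_eq_zero.1 h5).resolve_left h6
  have h8 : ∀ i, (S.θ i (S.D T * g)).coeff (-2) = -((S.θ i f).coeff (-1) * (S.θ i g).coeff (-1)) := by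
    intro i
    rw [map_mul, show (-2 : ℤ) = -1 + -1 by norm_num, (hθDT i).coeff_mul (hg.at_t i), H.θ_D,
      hθT i (-1) (by norm_num), map_zero, hET]
    ring
  rw [Finset.sum_congr rfl fun i _ => h8 i, Finset.sum_neg_distrib, neg_eq_zero] at h7
  exact h7

/-- exact regular forms have no pole in `s` at `t` -/
theorem lo_zero (f : L) (hf : S.Regular f) (hf' : S.E^[p - 1] f = 0) (i : Fin (m + 2)) :
    Lo 0 (S.θ i f) := by
  have h1 := H.pairing f f hf hf hf' hf'
  have hunr : ∀ i, i ≠ 0 → i ≠ 1 → (S.θ i f).coeff (-1) = 0 :=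
    fun i h0 h1 => H.unr i h0 h1 f (-1) (by decide)
  have h01 : (0 : Fin (m + 2)) ≠ 1 := by
    intro h
    have := congrArg Fin.val h
    simp at this
  rw [← Finset.add_sum_erase Finset.univ _ (Finset.mem_univ (0 : Fin (m + 2))),
    ← Finset.add_sum_erase (Finset.univ.erase 0) _ (Finset.mem_erase.2 ⟨h01.symm, Finset.mem_univ
      (1 : Fin (m + 2))⟩), Finset.sum_eq_zero (s := (Finset.univ.erase 0).erase 1)] at h1
  · rw [H.odd f (-1) (by decide)] at h1
    have h2 : (2 : K) * ((S.θ 0 f).coeff (-1) * (S.θ 0 f).coeff (-1)) = 0 := by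
      rw [← h1]; ring
    have h3 := (mul_eq_zero.1 h2).resolve_left H.two_ne
    have h4 : (S.θ 0 f).coeff (-1) = 0 := by simpa using h3
    intro k hk
    rcases lt_or_eq_of_le (show k ≤ -1 by omega) with h | h
    · exact hf.at_t i k h
    · rw [h]
      by_cases hi : i = 0
      · rw [hi, h4]
      · by_cases hi' : i = 1
        · rw [hi', H.odd f (-1) (by decide), h4, neg_zero]
        · exact hunr i hi hi'
  · intro i hi
    simp only [Finset.mem_erase, Finset.mem_univ, and_true] at hi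
    rw [hunr i hi.2 hi.1, mul_zero]

theorem E_iter_D (z : L) (q : ℕ) : S.E^[q] (S.D z) = S.D (S.E^[q] z) := by
  induction q with
  | zero => rfl
  | succ q ih => rw [Function.iterate_succ_apply', ih, Function.iterate_succ_apply', H.comm]

/-- stability under `D` -/
theorem stable (f : L) (hf : S.Regular f) (hf' : S.E^[p - 1] f = 0) :
    S.Regular (S.D f) ∧ S.E^[p - 1] (S.D f) = 0 := by
  refine ⟨⟨H.M_D f hf.fin, ?_, ?_⟩, by rw [H.E_iter_D, hf', map_zero]⟩
  · intro i k hk
    have h0 := H.lo_zero f hf hf'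
    rw [H.θ_D, h0 i k (by omega), map_zero, H.θE]
    rcases lt_or_eq_of_le (show k ≤ -2 by omega) with h | h
    · rw [h0 i (k + 2) (by omega)]; simp
    · rw [h]; simp
  · intro i
    exact H.ψ_D (hf.at_inf i)

end Data.Core
end Pool.Agent.R992.MC
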