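import Pool.Agent.R992.MC.Tr

/-!
# Integrality outside the branch points
-/

set_option autoImplicit false
set_option linter.unusedSectionVars false

namespace Pool.Agent.R992.MC

open Polynomial

section
variable {K F L : Type} [Field K] [Field F] [Field L]
  [Algebra K[X] F] [IsFractionRing K[X] F] [Algebra F L] [Algebra K[X] L] [IsScalarTower K[X] F L]

/-- integral over `K[x][1/U]` -/
def IntU (U : K[X]) (z : L) : Prop :=
  ∃ N : ℕ, IsIntegral K[X] (algebraMap K[X] L (U ^ N) * z)

/-- in `K[x][1/U]` -/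
def InU (U : K[X]) (e : F) : Prop :=
  ∃ (N : ℕ) (P : K[X]), algebraMap K[X] F (U ^ N) * e = algebraMap K[X] F P

theorem IntU.add {U : K[X]} {z w : L} (hz : IntU U z) (hw : IntU U w) : IntU U (z + w) := by
  obtain ⟨N, hN⟩ := hz
  obtain ⟨M, hM⟩ := hw
  refine ⟨N + M, ?_⟩
  have h1 : algebraMap K[X] L (U ^ (N + M)) * (z + w) =
      algebraMap K[X] L (U ^ M) * (algebraMap K[X] L (U ^ N) * z) +
      algebraMap K[X] L (U ^ N) * (algebraMap K[X] L (U ^ M) * w) := by
    rw [_root_.pow_add, map_mul]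
    ring
  rw [h1]
  exact (isIntegral_algebraMap.mul hN).add (isIntegral_algebraMap.mul hM)

theorem IntU.mul {U : K[X]} {z w : L} (hz : IntU U z) (hw : IntU U w) : IntU U (z * w) := by
  obtain ⟨N, hN⟩ := hz
  obtain ⟨M, hM⟩ := hw
  refine ⟨N + M, ?_⟩
  have h1 : algebraMap K[X] L (U ^ (N + M)) * (z * w) =
      (algebraMap K[X] L (U ^ N) * z) * (algebraMap K[X] L (U ^ M) * w) := by
    rw [_root_.pow_add, map_mul]
    ring
  rw [h1]
  exact hN.mul hM

theorem IntU.poly (U P : K[X]) : IntU U (algebraMap K[X] L P) :=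
  ⟨0, by simpa using isIntegral_algebraMap⟩

theorem IntU.of_int (U : K[X]) {z : L} (hz : IsIntegral K[X] z) : IntU U z :=
  ⟨0, by simpa using hz⟩

theorem IntU.neg {U : K[X]} {z : L} (hz : IntU U z) : IntU U (-z) := by
  have := (IntU.poly (L := L) U (-1)).mul hz
  simpa using this

theorem IntU.sum {U : K[X]} {ι : Type} (s : Finset ι) {z : ι → L} (h : ∀ i ∈ s, IntU U (z i)) :
    IntU U (∑ i ∈ s, z i) := by
  classical
  induction s using Finset.induction_on with
  | empty => simpa using IntU.poly (L := L) U 0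
  | insert a s ha ih =>
    rw [Finset.sum_insert ha]
    exact (h a (Finset.mem_insert_self a s)).add (ih fun i hi => h i (Finset.mem_insert_of_mem hi))

theorem IntU.of_InU {U : K[X]} {e : F} (h : InU U e) : IntU U (algebraMap F L e) := by
  obtain ⟨N, P, hN⟩ := h
  refine ⟨N, ?_⟩
  have h1 := congrArg (algebraMap F L) hN
  rw [map_mul, ← IsScalarTower.algebraMap_apply, ← IsScalarTower.algebraMap_apply] at h1
  rw [h1]
  exact isIntegral_algebraMap

/-- traces of integral elements -/
theorem trace_IntU [FiniteDimensional F L] {U : K[X]} {z : L} (hz : IntU U z) :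
    InU U (Algebra.trace F L z) := by
  obtain ⟨N, hN⟩ := hz
  have h1 : IsIntegral K[X] (Algebra.trace F L (algebraMap K[X] L (U ^ N) * z)) :=
    Algebra.isIntegral_trace hN
  obtain ⟨P, hP⟩ := (IsIntegrallyClosed.isIntegral_iff (R := K[X]) (K := F)).1 h1
  refine ⟨N, P, ?_⟩
  have h2 : ∀ e : F, Algebra.trace F L (algebraMap F L e * z) = e * Algebra.trace F L z :=
    fun e => by rw [← Algebra.smul_def, map_smul, smul_eq_mul]
  rw [hP, IsScalarTower.algebraMap_apply K[X] F L, h2]

/-- derivations which preserve polynomials preserve `K[x][1/U]` -/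
theorem der_U (δ : Derivation ℤ L L)
    (h : ∀ P : K[X], ∃ P' : K[X], δ (algebraMap K[X] L P) = algebraMap K[X] L P') (U : K[X])
    (e : F) (he : InU U e) : IntU U (δ (algebraMap F L e)) := by
  obtain ⟨N, G, hG⟩ := he
  obtain ⟨U', hU⟩ := h (U ^ N)
  obtain ⟨G', hG'⟩ := h G
  have htow : ∀ P : K[X], algebraMap F L (algebraMap K[X] F P) = algebraMap K[X] L P :=
    fun P => (IsScalarTower.algebraMap_apply K[X] F L P).symm
  refine ⟨N + N, ?_⟩
  have h4 := congrArg (algebraMap F L) hG
  rw [map_mul, htow, htow] at h4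
  have h5 := congrArg δ h4
  rw [Derivation.leibniz, hU, hG'] at h5
  simp only [smul_eq_mul] at h5
  have h6 : algebraMap K[X] L (U ^ (N + N)) * δ (algebraMap F L e) =
      algebraMap K[X] L (U ^ N * G' - U' * G) := by
    rw [map_sub, map_mul, map_mul, ← h5, ← h4, _root_.pow_add, map_mul]
    ring
  rw [h6]
  exact isIntegral_algebraMap

/-- **Étale algebras**: derivations which preserve polynomials preserve the integral elements
outside the discriminant. -/
theorem der_IntU [FiniteDimensional F L] [Algebra.IsSeparable F L] {n : ℕ}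
    (hn : Module.finrank F L = n) (U : K[X]) (hU0 : U ≠ 0) (z : Fin n → L)
    (hz : ∀ i, IsIntegral K[X] (z i)) (N : ℕ) (Q : K[X])
    (hd : algebraMap K[X] F Q * (gram F z).det = algebraMap K[X] F (U ^ N))
    (δ : Derivation ℤ L L)
    (h : ∀ P : K[X], ∃ P' : K[X], δ (algebraMap K[X] L P) = algebraMap K[X] L P')
    {y : L} (hy : IntU U y) : IntU U (δ y) := by
  have hinj := IsFractionRing.injective K[X] F
  have hUN : algebraMap K[X] F (U ^ N) ≠ 0 := by
    rw [Ne, map_eq_zero_iff _ hinj]
    exact pow_ne_zero N hU0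
  have hdet : (gram F z).det ≠ 0 := by
    intro h0
    rw [h0, mul_zero] at hd
    exact hUN hd.symm
  -- the entries of the Gram matrix
  have hg : ∀ i j, ∃ P : K[X], algebraMap K[X] F P = gram F z i j := fun i j =>
    (IsIntegrallyClosed.isIntegral_iff (R := K[X]) (K := F)).1
      (Algebra.isIntegral_trace ((hz i).mul (hz j)))
  choose g hg using hg
  have hg' : gram F z = (algebraMap K[X] F).mapMatrix (Matrix.of g) := by
    ext i j
    rw [RingHom.mapMatrix_apply, Matrix.map_apply, Matrix.of_apply, hg]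
  have hinv : ∀ i j, InU U ((gram F z)⁻¹ i j) := by
    intro i j
    refine ⟨N, Q * (Matrix.of g).adjugate i j, ?_⟩
    rw [Matrix.inv_def, Matrix.smul_apply, Ring.inverse_eq_inv', smul_eq_mul, ← hd]
    have h1 : (gram F z).adjugate i j = algebraMap K[X] F ((Matrix.of g).adjugate i j) := by
      have h2 : (gram F z).adjugate = (algebraMap K[X] F).mapMatrix (Matrix.of g).adjugate := by
        rw [hg', RingHom.map_adjugate]
      rw [h2, RingHom.mapMatrix_apply, Matrix.map_apply]
    rw [h1, map_mul]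
    field_simp
  have hdual : ∀ i, IntU U (dual F z i) := by
    intro i
    apply IntU.sum
    intro j _
    exact (IntU.of_InU (hinv i j)).mul (IntU.of_int U (hz j))
  rw [der_formula hn z hdet δ y]
  apply IntU.sum
  intro i _
  apply IntU.sum
  intro j _
  exact (der_U δ h U _ (trace_IntU ((hy.mul (hdual i)).mul (IntU.of_int U (hz j))))).mul
    ((IntU.of_int U (hz i)).mul (hdual j))

end

section pts
variable {K : Type} [Field K]

/-- the point `c + s ^ e` -/
noncomputable abbrev pt' (c : K) (e : ℕ) : LaurentSeries K :=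
  HahnSeries.C c + HahnSeries.single (e : ℤ) 1

theorem ev_pt'_sub (c : K) (e : ℕ) : ev (pt' c e) (X - Polynomial.C c) =
    HahnSeries.single (e : ℤ) 1 := by
  rw [map_sub, ev_X, ev_C]
  simp [pt']

theorem lo_pt' (c : K) (e : ℕ) : Lo 0 (pt' c e) :=
  (Lo.C c).add ((Lo.single (e : ℤ) 1).mono (by positivity))

theorem lo_ev_pt' (c : K) (e : ℕ) (P : K[X]) : Lo 0 (ev (pt' c e) P) := by
  induction P using Polynomial.induction_on' with
  | add P Q hP hQ =>
    rw [map_add]
    exact hP.add hQ
  | monomial n a =>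
    rw [← Polynomial.C_mul_X_pow_eq_monomial, map_mul, map_pow, ev_C, ev_X]
    have h2 := (Lo.C a).mul ((lo_pt' c e).pow0 n)
    simpa using h2

theorem coeff_ev_pt' (c : K) (e : ℕ) (he : 0 < e) (P : K[X]) :
    (ev (pt' c e) P).coeff 0 = P.eval c := by
  obtain ⟨Q, hQ⟩ := X_sub_C_dvd_sub_C_eval (a := c) (p := P)
  have h1 : P = (X - C c) * Q + C (P.eval c) := by rw [← hQ]; ring
  conv_lhs => rw [h1]
  rw [map_add, HahnSeries.coeff_add, map_mul, ev_pt'_sub, ev_C, HahnSeries.C_apply,
    HahnSeries.coeff_single_same]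
  have h2 := (Lo.single (e : ℤ) (1 : K)).mul (lo_ev_pt' c e Q)
  rw [h2 0 (by omega), zero_add]

theorem dvd_of_lo' (c : K) (e : ℕ) (he : 0 < e) (k : ℕ) : ∀ P : K[X],
    Lo (e * ((k : ℤ) - 1) + 1) (ev (pt' c e) P) → (X - Polynomial.C c) ^ k ∣ P := by
  induction k with
  | zero => intro P _; simp
  | succ k ih =>
    intro P hP
    have h1 : (X - Polynomial.C c) ∣ P := by
      rw [Polynomial.dvd_iff_isRoot, Polynomial.IsRoot.def, ← coeff_ev_pt' c e he P]
      apply hP
      push_cast
      have : (0 : ℤ) ≤ e * ((k : ℤ) + 1 - 1) := by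
        rw [add_sub_cancel_right]; positivity
      omega
    obtain ⟨Q, rfl⟩ := h1
    rw [pow_succ']
    apply mul_dvd_mul_left
    apply ih
    intro j hj
    have h2 := hP (j + e) (by
      push_cast
      have h3 : (e : ℤ) * ((k : ℤ) + 1 - 1) = e * ((k : ℤ) - 1) + e := by ring
      rw [h3]
      omega)
    rw [map_mul, ev_pt'_sub, HahnSeries.coeff_single_mul_add, one_mul] at h2
    exact h2

end pts

end Pool.Agent.R992.MC
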