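import Pool.Agent.R992.MC.Fin
import Pool.Agent.R992.MC.Et

/-!
# From coverings to the core statement
-/

set_option autoImplicit false
set_option linter.unusedSectionVars false

namespace Pool.Agent.R992.MC

open Polynomial

section exp
variable {K F L : Type} [Field K] [Field F] [Field L]
  [Algebra K[X] F] [IsFractionRing K[X] F] [Algebra F L] [Algebra K[X] L] [IsScalarTower K[X] F L]

/-- expansions commute with derivations -/
theorem exp_der (p : ℕ) [Fact p.Prime] [CharP K p] [Algebra.IsSeparable F L]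
    (σ : L →+* LaurentSeries K) (δ : Derivation ℤ L L) (τ : ℤ → (K →+ K))
    (hτ : ∀ i j a b, τ (i + j) (a * b) = a * τ j b + b * τ i a) (μ : LaurentSeries K)
    (hC : ∀ a : K, μ * σ (δ (algebraMap K[X] L (C a))) = tw τ (σ (algebraMap K[X] L (C a))))
    (hX : μ * σ (δ (algebraMap K[X] L X)) = tw τ (σ (algebraMap K[X] L X))) (z : L) :
    μ * σ (δ z) = tw τ (σ z) := by
  have h := uniq (K := K) (F := F) p σ (fun z => μ * σ (δ z) - tw τ (σ z)) (fun a b => by
      simp only [map_add, tw_add]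
      ring) (fun a b => by
      simp only [Derivation.leibniz, smul_eq_mul, map_add, map_mul, tw_mul τ hτ]
      ring) (fun a => sub_eq_zero.2 (hC a)) (sub_eq_zero.2 hX) z
  exact sub_eq_zero.1 h

theorem ring_hom_poly (σ : L →+* LaurentSeries K) (u : LaurentSeries K)
    (hC : ∀ a : K, σ (algebraMap K[X] L (C a)) = HahnSeries.C a)
    (hX : σ (algebraMap K[X] L X) = u) (P : K[X]) : σ (algebraMap K[X] L P) = ev u P := by
  have h : (σ.comp (algebraMap K[X] L)) = ev u := by
    apply Polynomial.ringHom_ext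
    · intro a
      rw [RingHom.comp_apply, hC, ev_C]
    · rw [RingHom.comp_apply, hX, ev_X]
  exact RingHom.congr_fun h P

theorem F_agree (σ σ' : L →+* LaurentSeries K) (h : ∀ P : K[X], σ (algebraMap K[X] L P) =
    σ' (algebraMap K[X] L P)) (e : F) : σ (algebraMap F L e) = σ' (algebraMap F L e) := by
  obtain ⟨P, Q, hQ, rfl⟩ := IsFractionRing.div_surjective K[X] (K := F) e
  rw [map_div₀, map_div₀, map_div₀, ← IsScalarTower.algebraMap_apply,
    ← IsScalarTower.algebraMap_apply, h, h]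

end exp

variable {K F L : Type} [Field K] [Field F] [Field L]
  [Algebra K[X] F] [IsFractionRing K[X] F] [Algebra F L] [Algebra K[X] L] [IsScalarTower K[X] F L]
  {m r p : ℕ} (S : Covering p K F L m r)

namespace Covering

/-- product of all `x - b_i` and `x - t` -/
noncomputable def W : K[X] := (∏ i, (X - C (S.b i))) * (X - C S.t)

theorem W_ne : S.W ≠ 0 :=
  mul_ne_zero (Finset.prod_ne_zero_iff.2 fun _ _ => X_sub_C_ne_zero _) (X_sub_C_ne_zero _)

/-- the coefficientwise derivation -/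
noncomputable def dh : ℤ → (K →+ K) := fun _ => S.d.toLinearMap.toAddMonoidHom

theorem dh_apply (k : ℤ) (a : K) : S.dh k a = S.d a := rfl

theorem dh_mul (i j : ℤ) (a b : K) : S.dh (i + j) (a * b) = a * S.dh j b + b * S.dh i a := by
  rw [dh_apply, dh_apply, dh_apply, Derivation.leibniz]
  simp only [smul_eq_mul]

/-- the functions regular outside `t` and infinity -/
noncomputable def A : Subring L where
  carrier := {z | IntU S.W z ∧ ∀ i j, Lo 0 (S.χ i j z)}
  mul_mem' := fun ha hb => ⟨ha.1.mul hb.1, fun i j => by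
    rw [map_mul]
    have := (ha.2 i j).mul (hb.2 i j)
    simpa using this⟩
  one_mem' := ⟨by simpa using IntU.poly (L := L) S.W 1, fun i j => by
    rw [map_one]; exact Lo.one⟩
  add_mem' := fun ha hb => ⟨ha.1.add hb.1, fun i j => by
    rw [map_add]; exact (ha.2 i j).add (hb.2 i j)⟩
  zero_mem' := ⟨by simpa using IntU.poly (L := L) S.W 0, fun i j => by
    rw [map_zero]; exact Lo.zero 0⟩
  neg_mem' := fun ha => ⟨ha.1.neg, fun i j => by rw [map_neg]; exact (ha.2 i j).neg⟩

theorem mem_A (z : L) : z ∈ S.A ↔ IntU S.W z ∧ ∀ i j, Lo 0 (S.χ i j z) := Iff.rfl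

/-- the data of the core statement -/
noncomputable def toData : Data K L m r where
  d := S.d
  t := S.t
  D := S.D
  E := S.E
  b := S.b
  θ := S.θ
  ψ := S.ψ
  A := S.A
  M := fun f => IntU S.W f ∧ ∀ i j, Lo (1 - (S.e i : ℤ)) (S.χ i j f)

theorem Regular.toReg {f : L} (hf : S.Regular f) : S.toData.Regular f :=
  ⟨⟨hf.out, hf.at_b⟩, hf.at_t, hf.at_inf⟩

variable [FiniteDimensional F L] [Algebra.IsSeparable F L] [hp : Fact p.Prime] [hc : CharP K p]

theorem e_pos (i : Fin (r + 1)) : 0 < S.e i := by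
  rcases Nat.eq_zero_or_pos (S.e i) with h | h
  · exfalso
    apply S.e_ne i
    rw [h, Nat.cast_zero]
  · exact h

theorem D_poly (P : K[X]) : ∃ P' : K[X], S.D (algebraMap K[X] L P) = algebraMap K[X] L P' :=
  der_poly S.D (fun a => ⟨_, S.D_C a⟩) ⟨0, by rw [S.D_X, map_zero]⟩ P

theorem E_poly (P : K[X]) : ∃ P' : K[X], S.E (algebraMap K[X] L P) = algebraMap K[X] L P' :=
  der_poly S.E (fun a => ⟨0, by rw [S.E_C, map_zero]⟩) ⟨1, by rw [S.E_X, map_one]⟩ P

include hp hc in
theorem comm (z : L) : S.D (S.E z) = S.E (S.D z) := by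
  have h := uniq (K := K) (F := F) p (RingHom.id L) (fun z => S.D (S.E z) - S.E (S.D z)) (fun a b => by
      simp only [map_add]
      ring) (fun a b => by
      simp only [Derivation.leibniz, smul_eq_mul, map_add, map_mul, RingHom.id_apply]
      ring) (fun a => by simp only [S.E_C, S.D_C, map_zero, sub_self])
      (by simp only [S.E_X, S.D_X, map_zero, Derivation.map_one_eq_zero, sub_self]) z
  exact sub_eq_zero.1 h

include hp hc in
theorem χE (i : Fin (r + 1)) (j : Fin (m + 2)) (z : L) (k : ℤ) :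
    (S.e i : K) * (S.χ i j (S.E z)).coeff k =
      ((k + S.e i : ℤ) : K) * (S.χ i j z).coeff (k + S.e i) := by
  have h := exp_der (F := F) p (S.χ i j) S.E eul eul_mul (HahnSeries.single (S.e i : ℤ) (S.e i : K))
    (fun a => by
      rw [S.E_C, map_zero, mul_zero, S.χ_C, tw_C, eul_apply]
      simp)
    (by
      rw [S.E_X, map_one, mul_one, S.χ_X, tw_add, tw_C, tw_single, eul_apply, eul_apply]
      simp) z
  have h1 := congrArg (fun α => α.coeff (k + S.e i)) h
  rw [HahnSeries.coeff_single_mul_add, tw_coeff, eul_apply] at h1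
  exact h1

include hp hc in
theorem χD (i : Fin (r + 1)) (j : Fin (m + 2)) (z : L) (k : ℤ) :
    (S.χ i j (S.D z)).coeff k = S.d ((S.χ i j z).coeff k) := by
  have h := exp_der (F := F) p (S.χ i j) S.D S.dh S.dh_mul 1
    (fun a => by rw [S.D_C, S.χ_C, S.χ_C, tw_C, one_mul, dh_apply])
    (by
      rw [S.D_X, map_zero, mul_zero, S.χ_X, tw_add, tw_C, tw_single, dh_apply, dh_apply, S.d_b,
        Derivation.map_one_eq_zero]
      simp) z
  have h1 := congrArg (fun α => α.coeff k) h
  rw [one_mul, tw_coeff, dh_apply] at h1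
  exact h1

include hp hc in
theorem θE (hp2 : p ≠ 2) (i : Fin (m + 2)) (z : L) (k : ℤ) :
    (S.θ i (S.E z)).coeff k = ((k + 2 : ℤ) : K) / 2 * (S.θ i z).coeff (k + 2) := by
  have h := exp_der (F := F) p (S.θ i) S.E eul eul_mul (HahnSeries.single 2 (2 : K))
    (fun a => by
      rw [S.E_C, map_zero, mul_zero, S.θ_C, tw_C, eul_apply]
      simp)
    (by
      rw [S.E_X, map_one, mul_one, S.θ_X, tw_add, tw_C, tw_single, eul_apply, eul_apply]
      simp) z
  have h1 := congrArg (fun α => α.coeff (k + 2)) h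
  rw [HahnSeries.coeff_single_mul_add, tw_coeff, eul_apply] at h1
  have h2 : (2 : K) ≠ 0 := by
    intro h0
    have h3 : ((2 : ℕ) : K) = 0 := by exact_mod_cast h0
    rw [CharP.cast_eq_zero_iff K p, Nat.prime_dvd_prime_iff_eq hp.out Nat.prime_two] at h3
    exact hp2 h3
  rw [div_mul_eq_mul_div, eq_div_iff h2, ← h1]
  ring

include hp hc in
theorem θD (i : Fin (m + 2)) (z : L) (k : ℤ) :
    (S.θ i (S.D z + S.E z)).coeff k = S.d ((S.θ i z).coeff k) := by
  have h := exp_der (F := F) p (S.θ i) (S.D + S.E) S.dh S.dh_mul 1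
    (fun a => by rw [Derivation.add_apply, S.D_C, S.E_C, S.θ_C, add_zero, S.θ_C, tw_C, one_mul,
      dh_apply])
    (by
      rw [Derivation.add_apply, S.D_X, S.E_X, zero_add, map_one, S.θ_X, tw_add, tw_C, tw_single,
        dh_apply, dh_apply, S.d_t, Derivation.map_one_eq_zero]
      simp) z
  have h1 := congrArg (fun α => α.coeff k) h
  rw [one_mul, tw_coeff, dh_apply, Derivation.add_apply] at h1
  exact h1

include hp hc in
theorem ψE (i : Fin (m + 2)) (z : L) (k : ℤ) :
    (S.ψ i (S.E z)).coeff k = ((1 - k : ℤ) : K) * (S.ψ i z).coeff (k - 1) := by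
  have h := exp_der (F := F) p (S.ψ i) S.E eul eul_mul (-HahnSeries.single (-1) (1 : K))
    (fun a => by
      rw [S.E_C, map_zero, mul_zero, S.ψ_C, tw_C, eul_apply]
      simp)
    (by
      rw [S.E_X, map_one (S.ψ i), mul_one, S.ψ_X, tw_single, eul_apply]
      ext j
      simp [HahnSeries.coeff_single]) z
  have h1 := congrArg (fun α => α.coeff (k + -1)) h
  rw [neg_mul, HahnSeries.coeff_neg, HahnSeries.coeff_single_mul_add, tw_coeff, eul_apply] at h1
  rw [show k - 1 = k + -1 by ring]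
  push_cast at h1 ⊢
  linear_combination -h1

include hp hc in
theorem ψD (i : Fin (m + 2)) (z : L) (k : ℤ) :
    (S.ψ i (S.D z)).coeff k = S.d ((S.ψ i z).coeff k) := by
  have h := exp_der (F := F) p (S.ψ i) S.D S.dh S.dh_mul 1
    (fun a => by rw [S.D_C, S.ψ_C, S.ψ_C, tw_C, one_mul, dh_apply])
    (by
      rw [S.D_X, map_zero, mul_zero, S.ψ_X, tw_single, dh_apply, Derivation.map_one_eq_zero]
      simp) z
  have h1 := congrArg (fun α => α.coeff k) h
  rw [one_mul, tw_coeff, dh_apply] at h1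
  exact h1

theorem θ_P (i : Fin (m + 2)) (P : K[X]) : S.θ i (algebraMap K[X] L P) = ev (pt S.t) P :=
  ring_hom_poly (S.θ i) (pt S.t) (S.θ_C i) (S.θ_X i) P

theorem ψ_P (i : Fin (m + 2)) (P : K[X]) : S.ψ i (algebraMap K[X] L P) = ev inf P :=
  ring_hom_poly (S.ψ i) inf (S.ψ_C i) (S.ψ_X i) P

theorem χ_P (i : Fin (r + 1)) (j : Fin (m + 2)) (P : K[X]) :
    S.χ i j (algebraMap K[X] L P) = ev (pt' (S.b i) (S.e i)) P :=
  ring_hom_poly (S.χ i j) _ (S.χ_C i j) (S.χ_X i j) P

theorem R_lo (i : Fin (r + 1)) (j : Fin (m + 2)) :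
    Lo (S.e i : ℤ) (S.χ i j (algebraMap K[X] L S.toData.R)) := by
  rw [S.χ_P]
  change Lo (S.e i : ℤ) (ev (pt' (S.b i) (S.e i)) (∏ i, (X - C (S.b i))))
  rw [← Finset.mul_prod_erase Finset.univ _ (Finset.mem_univ i), map_mul, ev_pt'_sub]
  have := (Lo.single (S.e i : ℤ) (1 : K)).mul (lo_ev_pt' (S.b i) (S.e i)
    (∏ j ∈ Finset.univ.erase i, (X - C (S.b j))))
  simpa using this

/-- elements of `K[x][1/W]` with small poles at the `b_i` -/
theorem InO_of (e : F) (he : InU S.W e)
    (h : ∀ i, Lo (1 - (S.e i : ℤ)) (S.χ i 0 (algebraMap F L e))) : InO K F S.t e := by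
  obtain ⟨N, P, hN⟩ := he
  have hinj := IsFractionRing.injective K[X] F
  refine ⟨N, ?_⟩
  have h1 : (∏ i, (X - C (S.b i)) ^ N) ∣ P := by
    apply Finset.prod_dvd_of_coprime
    · intro i _ j _ hij
      exact (Polynomial.pairwise_coprime_X_sub_C S.b_inj hij).pow
    · intro i _
      apply dvd_of_lo' (S.b i) (S.e i) (S.e_pos i)
      rw [← S.χ_P i 0, IsScalarTower.algebraMap_apply K[X] F L, ← hN, map_mul, map_mul,
        ← IsScalarTower.algebraMap_apply, S.χ_P, W, mul_pow, map_mul, ← Finset.prod_pow,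
        ← Finset.mul_prod_erase Finset.univ _ (Finset.mem_univ i), map_mul, map_pow, ev_pt'_sub]
      have h2 := ((Lo.single (S.e i : ℤ) (1 : K)).pow N).mul
        (lo_ev_pt' (S.b i) (S.e i) (∏ j ∈ Finset.univ.erase i, (X - C (S.b j)) ^ N))
      have h3 := (h2.mul (lo_ev_pt' (S.b i) (S.e i) ((X - C S.t) ^ N))).mul (h i)
      refine h3.mono ?_
      apply le_of_eq
      ring
  obtain ⟨Q, hQ⟩ := h1
  refine ⟨Q, ?_⟩
  rw [hQ, W, mul_pow, map_mul, map_mul, ← Finset.prod_pow, mul_assoc] at hN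
  refine mul_left_cancel₀ ?_ hN
  rw [Ne, map_eq_zero_iff _ hinj, Finset.prod_eq_zero_iff]
  rintro ⟨i, -, hi⟩
  exact pow_ne_zero N (X_sub_C_ne_zero _) hi

include hp hc in
/-- **The core statement applies.** -/
theorem core (hn : Module.finrank F L = m + 2) (hp2 : p ≠ 2) (hbig : m + 2 < p)
    (hbig' : (m + 2) * (m + 1) * (r - 1) < p) : Data.Core F p S.toData := by
  obtain ⟨z, N, Q, hz, hd⟩ := S.disc
  have hDB : ∀ {y : L}, IntU S.W y → IntU S.W (S.D y) := fun hy =>
    der_IntU hn S.W S.W_ne z hz N Q hd S.D S.D_poly hy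
  have hEB : ∀ {y : L}, IntU S.W y → IntU S.W (S.E y) := fun hy =>
    der_IntU hn S.W S.W_ne z hz N Q hd S.E S.E_poly hy
  have hM_tr : ∀ f, S.toData.M f → ∀ a ∈ S.A, InO K F S.t (Algebra.trace F L (f * a)) := by
    rintro f ⟨hf1, hf2⟩ a ⟨ha1, ha2⟩
    apply S.InO_of _ (trace_IntU (hf1.mul ha1))
    intro i
    have h1 := trace_sum hn (S.χ i) (S.χ_inj i) ((S.χ i 0).comp (algebraMap F L))
      (fun j e => F_agree _ _ (fun P => by rw [S.χ_P, S.χ_P]) e) (f * a)
    rw [RingHom.comp_apply] at h1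
    rw [h1]
    apply Lo.sum
    intro j _
    rw [map_mul]
    have := (hf2 i j).mul (ha2 i j)
    simpa using this
  refine
    { prime := hp.out
      char := hc
      two := hp2
      d_t := S.d_t
      d_b := S.d_b
      b_inj := S.b_inj
      D_C := S.D_C
      D_X := S.D_X
      E_C := S.E_C
      E_X := S.E_X
      comm := fun z => S.comm z
      nil := fun z => nilp (F := F) p S.d S.d_p S.D S.D_C S.D_X z
      θ_P := S.θ_P
      ψ_P := S.ψ_P
      even := S.even
      odd := S.odd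
      unr := S.unr
      A_P := ?_
      D_A := ?_
      E_A := ?_
      M_R := ?_
      M_tr := hM_tr
      M_D := ?_
      M_add := ?_
      M_C := ?_
      tr_A := ?_
      θ_tr := ?_
      ψ_tr := ?_
      θE := S.θE hp2
      θD := S.θD
      ψE := S.ψE
      ψD := S.ψD
      big := hbig
      big' := hbig' }
  · intro P
    exact ⟨IntU.poly _ P, fun i j => by rw [S.χ_P]; exact lo_ev_pt' _ _ P⟩
  · rintro z ⟨h1, h2⟩
    exact ⟨hDB h1, fun i j k hk => by
      change (S.χ i j (S.D z)).coeff k = 0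
      rw [S.χD, h2 i j k hk, map_zero]⟩
  · rintro z ⟨h1, h2⟩
    refine ⟨(IntU.poly _ _).mul (hEB h1), fun i j => ?_⟩
    rw [map_mul]
    have h3 : Lo (-(S.e i : ℤ)) (S.χ i j (S.toData.E z)) := by
      intro k hk
      change (S.χ i j (S.E z)).coeff k = 0
      have h4 := S.χE i j z k
      rw [h2 i j _ (by omega), mul_zero] at h4
      exact (mul_eq_zero.1 h4).resolve_left (S.e_ne i)
    have := (S.R_lo i j).mul h3
    simpa using this
  · rintro f ⟨h1, h2⟩
    refine ⟨(IntU.poly _ _).mul h1, fun i j => ?_⟩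
    rw [map_mul]
    exact ((S.R_lo i j).mul (h2 i j)).mono (by omega)
  · rintro f ⟨h1, h2⟩
    exact ⟨hDB h1, fun i j k hk => by
      change (S.χ i j (S.D f)).coeff k = 0
      rw [S.χD, h2 i j k hk, map_zero]⟩
  · rintro f g ⟨h1, h2⟩ ⟨h3, h4⟩
    exact ⟨h1.add h3, fun i j => by rw [map_add]; exact (h2 i j).add (h4 i j)⟩
  · rintro a f ⟨h1, h2⟩
    refine ⟨(IntU.poly _ _).mul h1, fun i j => ?_⟩
    rw [map_mul, S.χ_C]
    exact ((Lo.C a).mul (h2 i j)).mono (by omega)
  · rintro a ha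
    have h1 := hM_tr a ⟨ha.1, fun i j => (ha.2 i j).mono (by
      have := S.e_pos i
      omega)⟩ 1 S.A.one_mem
    rwa [mul_one] at h1
  · intro z i
    have h1 := trace_sum hn S.θ S.θ_inj ((S.θ i).comp (algebraMap F L))
      (fun j e => F_agree _ _ (fun P => by rw [S.θ_P, S.θ_P]) e) z
    exact h1
  · intro z i
    have h1 := trace_sum hn S.ψ S.ψ_inj ((S.ψ i).comp (algebraMap F L))
      (fun j e => F_agree _ _ (fun P => by rw [S.ψ_P, S.ψ_P]) e) z
    exact h1

end Covering

end Pool.Agent.R992.MC
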