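import Mathlib

/-!
# Coverings of the projective line with one moving simple branch point: definitions

Everything takes place in characteristic `p`: `K` is a field with a derivation `d`, `t ∈ K` has
`d t = 1` and `d^p = 0` (for instance `K` is a separable algebraic extension of `k(t)`), `F = K(x)`
is the field of fractions of `K[X]`, and `L` is a finite separable extension of `F`, the function
field of a curve `C` with a map `x` to the projective line.
-/

set_option autoImplicit false

namespace Pool.Agent.R992.MC

open Polynomial

/-- All coefficients of the Laurent series `α` below `m` vanish. -/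
def Lo {K : Type} [Field K] (m : ℤ) (α : LaurentSeries K) : Prop := ∀ k : ℤ, k < m → α.coeff k = 0

/-- A covering `C → P^1` of degree `m + 2` over `K`, given by its function field `L`, with its
expansions at the points over the branch points and over infinity. The branch points are `t`, which
is simple and moves with `d t = 1`, and the constants `b_0, …, b_r`. -/
structure Covering (p : ℕ) (K F L : Type) [Field K] [Field F] [Field L]
    [Algebra K[X] F] [Algebra F L] [Algebra K[X] L] (m r : ℕ) where
  /-- the derivation of `K` -/
  d : Derivation ℤ K K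
  /-- the moving branch point -/
  t : K
  /-- the extension of `d` to `L` with `D x = 0` -/
  D : Derivation ℤ L L
  /-- the derivation `d / dx` of `L`, trivial on `K` -/
  E : Derivation ℤ L L
  /-- the other branch points -/
  b : Fin (r + 1) → K
  /-- the exponents `e_i` of the expansions over `b_i` -/
  e : Fin (r + 1) → ℕ
  /-- the expansions over `b_i` in powers of `s`, where `x = b_i + s ^ e_i` -/
  χ : Fin (r + 1) → Fin (m + 2) → (L →+* LaurentSeries K)
  /-- the expansions over `t` in powers of `s`, where `x = t + s ^ 2` -/
  θ : Fin (m + 2) → (L →+* LaurentSeries K)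
  /-- the expansions over infinity in powers of `w`, where `x = 1 / w` -/
  ψ : Fin (m + 2) → (L →+* LaurentSeries K)
  d_t : d t = 1
  d_b : ∀ i, d (b i) = 0
  d_p : ∀ a, d^[p] a = 0
  D_C : ∀ a : K, D (algebraMap K[X] L (C a)) = algebraMap K[X] L (C (d a))
  D_X : D (algebraMap K[X] L X) = 0
  E_C : ∀ a : K, E (algebraMap K[X] L (C a)) = 0
  E_X : E (algebraMap K[X] L X) = 1
  b_inj : Function.Injective b
  /-- the ramification over the `b_i` is tame -/
  e_ne : ∀ i, (e i : K) ≠ 0
  χ_C : ∀ i j (a : K), χ i j (algebraMap K[X] L (C a)) = HahnSeries.C a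
  χ_X : ∀ i j, χ i j (algebraMap K[X] L X) = HahnSeries.C (b i) + HahnSeries.single (e i : ℤ) 1
  /-- the `m + 2` expansions over `b_i` are different -/
  χ_inj : ∀ i, Function.Injective (χ i)
  θ_C : ∀ i (a : K), θ i (algebraMap K[X] L (C a)) = HahnSeries.C a
  θ_X : ∀ i, θ i (algebraMap K[X] L X) = HahnSeries.C t + HahnSeries.single 2 1
  /-- the `m + 2` expansions over `t` are different -/
  θ_inj : Function.Injective θ
  /-- the expansions `0` and `1` over `t` are exchanged by `s ↦ -s` -/
  even : ∀ z (k : ℤ), Even k → (θ 1 z).coeff k = (θ 0 z).coeff k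
  odd : ∀ z (k : ℤ), Odd k → (θ 1 z).coeff k = -(θ 0 z).coeff k
  /-- the other expansions over `t` are in powers of `x - t = s ^ 2` (unramified points) -/
  unr : ∀ i, i ≠ 0 → i ≠ 1 → ∀ z (k : ℤ), Odd k → (θ i z).coeff k = 0
  ψ_C : ∀ i (a : K), ψ i (algebraMap K[X] L (C a)) = HahnSeries.C a
  ψ_X : ∀ i, ψ i (algebraMap K[X] L X) = HahnSeries.single (-1) 1
  /-- the `m + 2` expansions over infinity are different (so infinity is not a branch point) -/
  ψ_inj : Function.Injective ψ
  /-- the covering is unramified outside `t`, the `b_i` (and infinity): there are integral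
  `z_0, …, z_(m+1)` whose discriminant divides a power of `(x - t) ∏ (x - b_i)` -/
  disc : ∃ (z : Fin (m + 2) → L) (N : ℕ) (Q : K[X]), (∀ i, IsIntegral K[X] (z i)) ∧
    algebraMap K[X] F Q * (Matrix.of fun i j => Algebra.trace F L (z i * z j)).det =
      algebraMap K[X] F (((∏ i, (X - C (b i))) * (X - C t)) ^ N)

/-- The differential form `f dx` on the curve is regular (everywhere). -/
structure Covering.Regular {p : ℕ} {K F L : Type} [Field K] [Field F] [Field L]
    [Algebra K[X] F] [Algebra F L] [Algebra K[X] L] {m r : ℕ} (S : Covering p K F L m r)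
    (f : L) : Prop where
  /-- outside the points over `t`, the `b_i` and infinity, where `x` is a local parameter:
  `f` is integral over `K[x]` after multiplication by a power of `(x - t) ∏ (x - b_i)` -/
  out : ∃ N : ℕ, IsIntegral K[X]
    (algebraMap K[X] L (((∏ i, (X - C (S.b i))) * (X - C S.t)) ^ N) * f)
  /-- over `b_i`: `f dx = e_i f s ^ (e_i - 1) ds` -/
  at_b : ∀ i j, Lo (1 - (S.e i : ℤ)) (S.χ i j f)
  /-- over `t`: `f dx = 2 f s ds` -/
  at_t : ∀ i, Lo (-1) (S.θ i f)
  /-- over infinity: `f dx = - f dw / w ^ 2` -/
  at_inf : ∀ i, Lo 2 (S.ψ i f)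

end Pool.Agent.R992.MC
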