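import Pool.Agent.R992.MC.Setup

/-!
# Derivations of Laurent series, uniqueness of derivations of separable extensions
-/

set_option autoImplicit false
set_option linter.unusedSectionVars false

namespace Pool.Agent.R992.MC

open Polynomial

section tw
variable {K : Type} [Field K]

/-- coefficientwise additive operator -/
noncomputable def tw (τ : ℤ → (K →+ K)) (α : LaurentSeries K) : LaurentSeries K where
  coeff k := τ k (α.coeff k)
  isPWO_support' := α.isPWO_support.mono (by
    intro k hk h
    apply hk
    simp only
    rw [h, map_zero])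

theorem tw_coeff (τ : ℤ → (K →+ K)) (α : LaurentSeries K) (k : ℤ) :
    (tw τ α).coeff k = τ k (α.coeff k) := rfl

theorem tw_add (τ : ℤ → (K →+ K)) (α β : LaurentSeries K) :
    tw τ (α + β) = tw τ α + tw τ β := by
  ext k
  rw [tw_coeff, HahnSeries.coeff_add, map_add, HahnSeries.coeff_add, tw_coeff, tw_coeff]

theorem tw_supp (τ : ℤ → (K →+ K)) (α : LaurentSeries K) : (tw τ α).support ⊆ α.support := by
  intro k hk
  rw [HahnSeries.mem_support] at hk ⊢
  intro h
  apply hk
  rw [tw_coeff, h, map_zero]

theorem tw_mul (τ : ℤ → (K →+ K)) (hτ : ∀ i j a b, τ (i + j) (a * b) = a * τ j b + b * τ i a)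
    (α β : LaurentSeries K) : tw τ (α * β) = α * tw τ β + β * tw τ α := by
  ext k
  rw [tw_coeff, HahnSeries.coeff_add, mul_comm β (tw τ α), HahnSeries.coeff_mul,
    HahnSeries.coeff_mul_right' β.isPWO_support (tw_supp τ β),
    HahnSeries.coeff_mul_left' α.isPWO_support (tw_supp τ α), map_sum, ← Finset.sum_add_distrib]
  apply Finset.sum_congr rfl
  rintro ⟨i, j⟩ hij
  rw [Finset.mem_antidiagonal] at hij
  simp only at hij ⊢
  rw [← hij.2.2, hτ, tw_coeff, tw_coeff]
  ring

/-- `k ↦ multiplication by k` -/
noncomputable def eul : ℤ → (K →+ K) := fun k => AddMonoidHom.mulLeft (k : K)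

theorem eul_apply (k : ℤ) (a : K) : eul k a = (k : K) * a := rfl

theorem eul_mul (i j : ℤ) (a b : K) : eul (i + j) (a * b) = a * eul j b + b * eul i a := by
  rw [eul_apply, eul_apply, eul_apply]
  push_cast
  ring

theorem tw_single (τ : ℤ → (K →+ K)) (k : ℤ) (a : K) :
    tw τ (HahnSeries.single k a) = HahnSeries.single k (τ k a) := by
  ext j
  rw [tw_coeff]
  by_cases h : j = k
  · rw [h, HahnSeries.coeff_single_same, HahnSeries.coeff_single_same]
  · rw [HahnSeries.coeff_single_of_ne h, HahnSeries.coeff_single_of_ne h, map_zero]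

theorem tw_C (τ : ℤ → (K →+ K)) (a : K) :
    tw τ (HahnSeries.C a) = HahnSeries.C (τ 0 a) := by
  rw [HahnSeries.C_apply, tw_single, HahnSeries.C_apply]

end tw

section uniq
variable {K F L : Type} [Field K] [Field F] [Field L]
  [Algebra K[X] F] [IsFractionRing K[X] F] [Algebra F L] [Algebra K[X] L] [IsScalarTower K[X] F L]

theorem charP_F (p : ℕ) [CharP K p] : CharP F p := by
  have h : Function.Injective ((algebraMap K[X] F).comp (C : K →+* K[X])) := RingHom.injective _
  exact charP_of_injective_ringHom h p

theorem charP_L (p : ℕ) [CharP K p] : CharP L p := by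
  have h : Function.Injective ((algebraMap K[X] L).comp (C : K →+* K[X])) := RingHom.injective _
  exact charP_of_injective_ringHom h p

/-- **Uniqueness**: a derivation which vanishes on `K` and `x` is zero. -/
theorem uniq (p : ℕ) [Fact p.Prime] [CharP K p] [Algebra.IsSeparable F L] {Ω : Type} [Field Ω]
    (σ : L →+* Ω) (δ : L → Ω) (hadd : ∀ a b, δ (a + b) = δ a + δ b)
    (hmul : ∀ a b, δ (a * b) = σ a * δ b + σ b * δ a)
    (hC : ∀ a : K, δ (algebraMap K[X] L (C a)) = 0) (hX : δ (algebraMap K[X] L X) = 0) (z : L) :
    δ z = 0 := by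
  have h0 : δ 0 = 0 := by
    have := hadd 0 0
    rw [add_zero] at this
    simpa using this
  have h1 : δ 1 = 0 := by
    have := hC 1
    simpa using this
  have hpow : ∀ (z : L) (n : ℕ), δ (z ^ n) = (n : Ω) * σ z ^ (n - 1) * δ z := by
    intro z n
    induction n with
    | zero => simp [h1]
    | succ n ih =>
      rw [pow_succ, hmul, ih, Nat.add_sub_cancel]
      rcases Nat.eq_zero_or_pos n with hn | hn
      · subst hn; simp
      · obtain ⟨k, rfl⟩ : ∃ k, n = k + 1 := ⟨n - 1, by omega⟩
        rw [Nat.add_sub_cancel, map_pow]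
        push_cast
        ring
  have hp : (p : Ω) = 0 := by
    have h2 : ((p : ℕ) : L) = 0 := by
      have := charP_L (K := K) (L := L) p
      exact CharP.cast_eq_zero L p
    rw [← map_natCast σ, h2, map_zero]
  have hpoly : ∀ P : K[X], δ (algebraMap K[X] L P) = 0 := by
    intro P
    induction P using Polynomial.induction_on with
    | C a => exact hC a
    | add P Q hP hQ => rw [map_add, hadd, hP, hQ, add_zero]
    | monomial n a ih =>
      rw [pow_succ, ← mul_assoc, map_mul, hmul, ih, hX]
      simp
  have hinv : ∀ z, δ z = 0 → δ z⁻¹ = 0 := by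
    intro z hz
    by_cases hz0 : z = 0
    · rw [hz0, inv_zero, h0]
    · have h2 := hmul z z⁻¹
      rw [mul_inv_cancel₀ hz0, h1, hz, mul_zero, add_zero] at h2
      exact (mul_eq_zero.1 h2.symm).resolve_left ((map_ne_zero_iff σ σ.injective).2 hz0)
  have hF : ∀ e : F, δ (algebraMap F L e) = 0 := by
    intro e
    obtain ⟨P, Q, hQ, rfl⟩ := IsFractionRing.div_surjective K[X] (K := F) e
    rw [div_eq_mul_inv, map_mul, hmul, map_inv₀, ← IsScalarTower.algebraMap_apply,
      ← IsScalarTower.algebraMap_apply, hpoly, hinv _ (hpoly Q)]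
    simp
  let Z : IntermediateField F L :=
    { carrier := {z | δ z = 0}
      mul_mem' := by
        intro a b ha hb
        simp only [Set.mem_ofPred_eq] at ha hb ⊢
        rw [hmul, ha, hb]
        simp
      one_mem' := h1
      add_mem' := by
        intro a b ha hb
        simp only [Set.mem_ofPred_eq] at ha hb ⊢
        rw [hadd, ha, hb, add_zero]
      zero_mem' := h0
      algebraMap_mem' := hF
      inv_mem' := fun a ha => hinv a ha }
  have hcF : CharP F p := charP_F (K := K) p
  have : ExpChar F p := ExpChar.prime Fact.out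
  have h2 : IntermediateField.adjoin F {z} = IntermediateField.adjoin F {z ^ p} :=
    IntermediateField.adjoin_simple_eq_adjoin_pow_expChar_of_isSeparable' F L z p
  have h3 : IntermediateField.adjoin F {z ^ p} ≤ Z := by
    rw [IntermediateField.adjoin_le_iff, Set.singleton_subset_iff]
    change δ (z ^ p) = 0
    rw [hpow, hp, zero_mul, zero_mul]
  have h4 : z ∈ IntermediateField.adjoin F {z} :=
    IntermediateField.mem_adjoin_simple_self F z
  rw [h2] at h4
  exact h3 h4

/-- the `p`-th iterate of a derivation vanishes if it does so on polynomials -/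
theorem nilp' (p : ℕ) [Fact p.Prime] [CharP K p] [Algebra.IsSeparable F L]
    (D : Derivation ℤ L L) (hpoly : ∀ P : K[X], D^[p] (algebraMap K[X] L P) = 0) (z : L) :
    D^[p] z = 0 := by
  have hcL := charP_L (K := K) (L := L) p
  have hcF : CharP F p := charP_F (K := K) p
  have : ExpChar F p := ExpChar.prime Fact.out
  have hp0 : 0 < p := (Fact.out : p.Prime).pos
  have hcst : ∀ (c : L), D c = 0 → ∀ (z : L) (n : ℕ), D^[n] (z * c) = D^[n] z * c := by
    intro c hc z n
    induction n with
    | zero => rfl
    | succ n ih =>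
      rw [Function.iterate_succ_apply', ih, Derivation.leibniz, hc, Function.iterate_succ_apply']
      simp only [smul_eq_mul, mul_zero, zero_add]
      ring
  have hadd : ∀ (a b : L) (n : ℕ), D^[n] (a + b) = D^[n] a + D^[n] b := by
    intro a b n
    induction n with
    | zero => rfl
    | succ n ih => rw [Function.iterate_succ_apply', ih, map_add, Function.iterate_succ_apply',
        Function.iterate_succ_apply']
  have hpw : ∀ z : L, D (z ^ p) = 0 := by
    intro z
    rw [Derivation.leibniz_pow, nsmul_eq_mul, CharP.cast_eq_zero, zero_mul]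
  have hF : ∀ e : F, D^[p] (algebraMap F L e) = 0 := by
    intro e
    obtain ⟨P, Q, hQ, rfl⟩ := IsFractionRing.div_surjective K[X] (K := F) e
    by_cases hQ0 : algebraMap K[X] L Q = 0
    · rw [map_div₀, ← IsScalarTower.algebraMap_apply, ← IsScalarTower.algebraMap_apply, hQ0,
        div_zero]
      have := hpoly 0
      simpa using this
    · have h1 : algebraMap F L (algebraMap K[X] F P / algebraMap K[X] F Q) =
          algebraMap K[X] L (P * Q ^ (p - 1)) * (algebraMap K[X] L Q)⁻¹ ^ p := by
        rw [map_div₀, ← IsScalarTower.algebraMap_apply, ← IsScalarTower.algebraMap_apply, map_mul,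
          map_pow, inv_pow, div_eq_iff hQ0, mul_assoc, mul_assoc]
        rw [show ((algebraMap K[X] L Q) ^ (p - 1) * (((algebraMap K[X] L Q) ^ p)⁻¹ *
          (algebraMap K[X] L Q))) = (algebraMap K[X] L Q) ^ (p - 1) * (algebraMap K[X] L Q) *
          ((algebraMap K[X] L Q) ^ p)⁻¹ by ring, ← pow_succ, Nat.sub_add_cancel hp0,
          mul_inv_cancel₀ (pow_ne_zero p hQ0), mul_one]
      rw [h1, hcst _ (hpw _), hpoly, zero_mul]
  have h2 : IntermediateField.adjoin F {z} = IntermediateField.adjoin F {z ^ p} :=
    IntermediateField.adjoin_simple_eq_adjoin_pow_expChar_of_isSeparable' F L z p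
  have h4 : z ∈ IntermediateField.adjoin F {z} :=
    IntermediateField.mem_adjoin_simple_self F z
  have hint : IsIntegral F (z ^ p) :=
    ((Algebra.IsSeparable.isSeparable F z).isIntegral).pow p
  have hP' : ∀ P : F[X], D^[p] (aeval (z ^ p) P) = 0 := by
    intro P
    induction P using Polynomial.induction_on' with
    | add P Q hP hQ => rw [map_add, hadd, hP, hQ, add_zero]
    | monomial n a =>
      rw [aeval_monomial, hcst _ _, hF, zero_mul]
      rw [← pow_mul, mul_comm p n, pow_mul]
      exact hpw _
  rw [h2, ← IntermediateField.mem_toSubalgebra,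
    IntermediateField.adjoin_simple_toSubalgebra_of_isAlgebraic hint.isAlgebraic,
    Algebra.adjoin_singleton_eq_range_aeval] at h4
  obtain ⟨P, hP⟩ := h4
  rw [← hP]
  exact hP' P

/-- the `p`-th iterate of `D` vanishes if it does so on `K` -/
theorem nilp (p : ℕ) [Fact p.Prime] [CharP K p] [Algebra.IsSeparable F L]
    (d : Derivation ℤ K K) (hd : ∀ a : K, d^[p] a = 0) (D : Derivation ℤ L L)
    (hC : ∀ a : K, D (algebraMap K[X] L (C a)) = algebraMap K[X] L (C (d a)))
    (hX : D (algebraMap K[X] L X) = 0) (z : L) : D^[p] z = 0 := by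
  have hcst : ∀ (c : L), D c = 0 → ∀ (z : L) (n : ℕ), D^[n] (z * c) = D^[n] z * c := by
    intro c hc z n
    induction n with
    | zero => rfl
    | succ n ih =>
      rw [Function.iterate_succ_apply', ih, Derivation.leibniz, hc, Function.iterate_succ_apply']
      simp only [smul_eq_mul, mul_zero, zero_add]
      ring
  have hadd : ∀ (a b : L) (n : ℕ), D^[n] (a + b) = D^[n] a + D^[n] b := by
    intro a b n
    induction n with
    | zero => rfl
    | succ n ih => rw [Function.iterate_succ_apply', ih, map_add, Function.iterate_succ_apply',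
        Function.iterate_succ_apply']
  have hpoly : ∀ P : K[X], D^[p] (algebraMap K[X] L P) = 0 := by
    intro P
    induction P using Polynomial.induction_on' with
    | add P Q hP hQ => rw [map_add, hadd, hP, hQ, add_zero]
    | monomial n a =>
      rw [← Polynomial.C_mul_X_pow_eq_monomial, map_mul, map_pow, hcst]
      · have h1 : ∀ (n : ℕ) (a : K), D^[n] (algebraMap K[X] L (C a)) =
            algebraMap K[X] L (C (d^[n] a)) := by
          intro n
          induction n with
          | zero => intro a; rfl
          | succ n ih => intro a; rw [Function.iterate_succ_apply, hC, ih,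
              Function.iterate_succ_apply]
        rw [h1, hd]
        simp
      · rw [Derivation.leibniz_pow, hX]
        simp
  exact nilp' (F := F) p D hpoly z

/-- the `p`-th iterate of `d/dx` vanishes -/
theorem nilpE (p : ℕ) [Fact p.Prime] [CharP K p] [Algebra.IsSeparable F L]
    (E : Derivation ℤ L L) (hC : ∀ a : K, E (algebraMap K[X] L (C a)) = 0)
    (hX : E (algebraMap K[X] L X) = 1) (z : L) : E^[p] z = 0 := by
  apply nilp' (K := K) (F := F) p E
  have h1 : ∀ P : K[X], E (algebraMap K[X] L P) = algebraMap K[X] L (derivative P) := by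
    intro P
    induction P using Polynomial.induction_on with
    | C a => rw [hC, derivative_C, map_zero]
    | add P Q hP hQ => rw [map_add, map_add, hP, hQ, derivative_add, map_add]
    | monomial n a ih =>
      rw [pow_succ, ← mul_assoc, map_mul, Derivation.leibniz, ih, hX,
        derivative_mul (f := C a * X ^ n), derivative_X, mul_one]
      simp only [smul_eq_mul, map_add, map_mul, mul_one]
      ring
  intro P
  have h2 : ∀ n : ℕ, E^[n] (algebraMap K[X] L P) = algebraMap K[X] L (derivative^[n] P) := by
    intro n
    induction n with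
    | zero => rfl
    | succ n ih => rw [Function.iterate_succ_apply', ih, h1, Function.iterate_succ_apply']
  rw [h2, ← Polynomial.factorial_smul_hasseDeriv]
  have h3 : ((p.factorial : ℕ) : K[X]) = 0 :=
    (CharP.cast_eq_zero_iff K[X] p _).2 (Nat.dvd_factorial (Fact.out : p.Prime).pos le_rfl)
  rw [LinearMap.smul_apply, nsmul_eq_mul, h3, zero_mul, map_zero]

end uniq

end Pool.Agent.R992.MC
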