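import Pool.Agent.R992.MC.Core

/-!
# Conclusion: exact regular differentials come from the covering unramified over `t`
-/

set_option autoImplicit false
set_option linter.unusedSectionVars false

namespace Pool.Agent.R992.MC

open Polynomial

theorem Lo.prod' {K : Type} [Field K] {ι : Type} (s : Finset ι) {m : ι → ℤ}
    {α : ι → LaurentSeries K} (h : ∀ i ∈ s, Lo (m i) (α i)) : Lo (∑ i ∈ s, m i) (∏ i ∈ s, α i) := by
  classical
  induction s using Finset.induction_on with
  | empty => simpa using Lo.one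
  | insert a s ha ih =>
    rw [Finset.prod_insert ha, Finset.sum_insert ha]
    exact (h a (Finset.mem_insert_self a s)).mul
      (ih fun i hi => h i (Finset.mem_insert_of_mem hi))

theorem lo_vandermonde {K : Type} [Field K] {n : ℕ} (v : Fin n → LaurentSeries K)
    (hv : ∀ i, Lo 0 (v i)) {a b : Fin n} (hab : a < b) {q : ℤ} (h : Lo q (v b - v a)) :
    Lo q (Matrix.vandermonde v).det := by
  classical
  rw [Matrix.det_vandermonde, ← Finset.mul_prod_erase Finset.univ _ (Finset.mem_univ a),
      ← Finset.mul_prod_erase (Finset.Ioi a) _ (Finset.mem_Ioi.2 hab)]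
  have hb : ∀ s : Finset (Fin n), ∀ i, Lo 0 (∏ j ∈ s, (v j - v i)) := by
    intro s i
    have := Lo.prod (m := 0) s (α := fun j => v j - v i) (fun j _ => (hv j).sub (hv i))
    simpa using this
  have hc : ∀ s : Finset (Fin n), Lo 0 (∏ i ∈ s, ∏ j ∈ Finset.Ioi i, (v j - v i)) := by
    intro s
    have := Lo.prod (m := 0) s (α := fun i => ∏ j ∈ Finset.Ioi i, (v j - v i))
      (fun i _ => hb _ i)
    simpa using this
  have := (h.mul (hb ((Finset.Ioi a).erase b) a)).mul (hc (Finset.univ.erase a))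
  simpa using this

variable {K F L : Type} [Field K] [Field F] [Field L]
  [Algebra K[X] F] [IsFractionRing K[X] F] [Algebra F L] [Algebra K[X] L] [IsScalarTower K[X] F L]
  {m r p : ℕ} {S : Data K L m r}

namespace Data.Core

variable (H : Data.Core F p S)
include H

theorem lo_iter (f : L) (h0 : ∀ i, Lo 0 (S.θ i f)) (hD : S.D f = 0) (q : ℕ) :
    ∀ i, Lo 0 (S.θ i (S.E^[q] f)) := by
  induction q with
  | zero => exact h0
  | succ q ih =>
    intro i k hk
    rw [Function.iterate_succ_apply']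
    have h1 := H.θD i (S.E^[q] f) k
    rw [← H.E_iter_D, hD] at h1
    have h2 : S.E^[q] (0 : L) = 0 := by
      clear h1 ih
      induction q with
      | zero => rfl
      | succ q ih => rw [Function.iterate_succ_apply', ih, map_zero]
    rw [h2, zero_add, ih i k hk, map_zero] at h1
    exact h1

theorem coeff_odd (i : Fin (m + 2)) (q : ℕ) : 2 * q < p + 1 → ∃ c : K, c ≠ 0 ∧ ∀ z : L,
    (S.θ i (S.E^[q] z)).coeff (-1) = c * (S.θ i z).coeff (2 * q - 1) := by
  induction q with
  | zero => intro _; exact ⟨1, one_ne_zero, fun z => by simp⟩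
  | succ q ih =>
    intro hq
    obtain ⟨c, hc, h⟩ := ih (by omega)
    refine ⟨c * (((2 * q + 1 : ℕ) : K) / 2), mul_ne_zero hc (div_ne_zero ?_ H.two_ne), ?_⟩
    · exact H.ne_zero (by omega) (by omega)
    · intro z
      rw [Function.iterate_succ_apply, h, H.θE]
      rw [show (2 * (q : ℤ) - 1) + 2 = 2 * ((q + 1 : ℕ) : ℤ) - 1 by push_cast; ring]
      push_cast
      ring

theorem diff_lo (f : L) (h0 : ∀ i, Lo 0 (S.θ i f)) (hD : S.D f = 0) :
    Lo p (S.θ 1 f - S.θ 0 f) := by
  intro k hk
  rw [HahnSeries.coeff_sub]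
  rcases Int.even_or_odd k with h | h
  · rw [H.even f k h, sub_self]
  · rw [H.odd f k h]
    suffices h1 : (S.θ 0 f).coeff k = 0 by rw [h1]; ring
    by_cases hk0 : k < 0
    · exact h0 0 k hk0
    · obtain ⟨j, hj⟩ := h
      obtain ⟨q, hq⟩ : ∃ q : ℕ, (q : ℤ) = j + 1 := ⟨(j + 1).toNat, by omega⟩
      obtain ⟨c, hc, h2⟩ := H.coeff_odd 0 q (by omega)
      have h3 := h2 f
      rw [H.lo_iter f h0 hD q 0 (-1) (by norm_num)] at h3
      have h4 := (mul_eq_zero.1 h3.symm).resolve_left hc
      rw [show k = 2 * (q : ℤ) - 1 by omega]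
      exact h4

theorem eq_of_const (f : L) (hf : S.Regular f) (h0 : ∀ i, Lo 0 (S.θ i f)) (hD : S.D f = 0) :
    S.θ 0 f = S.θ 1 f := by
  classical
  by_contra hn
  have hRL : algebraMap K[X] L S.R ≠ 0 := by
    rw [← htow (F := F), Ne, map_eq_zero_iff _ (algebraMap F L).injective,
      map_eq_zero_iff _ (IsFractionRing.injective K[X] F), Data.R, Finset.prod_eq_zero_iff]
    rintro ⟨i, -, hi⟩
    exact X_sub_C_ne_zero _ hi
  obtain ⟨h, hh⟩ : ∃ h, h = algebraMap K[X] L S.R * f := ⟨_, rfl⟩
  have hhn : S.θ 0 h ≠ S.θ 1 h := by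
    intro he
    apply hn
    rw [hh, map_mul, map_mul, H.θ_P, H.θ_P] at he
    refine mul_left_cancel₀ ?_ he
    rw [← H.θ_P 0]
    exact (map_ne_zero_iff _ (S.θ 0).injective).2 hRL
  have hhA : h ∈ S.A := by rw [hh]; exact H.M_R f hf.fin
  -- the distinct values
  obtain ⟨Z, hZ⟩ : ∃ Z : Finset (LaurentSeries K), Z = Finset.univ.image (fun k => S.θ k h) :=
    ⟨_, rfl⟩
  have hmemZ : ∀ w ∈ Z, ∃ k, S.θ k h = w := by
    intro w hw
    rw [hZ, Finset.mem_image] at hw
    obtain ⟨k, -, hk⟩ := hw
    exact ⟨k, hk⟩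
  obtain ⟨n, hn'⟩ : ∃ n, n = Z.card := ⟨_, rfl⟩
  have hnm : n ≤ m + 2 := by
    rw [hn', hZ]
    exact (Finset.card_image_le).trans (by simp)
  obtain ⟨ε, -⟩ : ∃ ε : Fin n ≃ Z, True := ⟨hn' ▸ Z.equivFin.symm, trivial⟩
  obtain ⟨v, hv⟩ : ∃ v : Fin n → LaurentSeries K, v = fun i => (ε i : LaurentSeries K) := ⟨_, rfl⟩
  obtain ⟨μ, hμ⟩ : ∃ μ : LaurentSeries K → ℕ, μ = fun w =>
    (Finset.univ.filter fun k => S.θ k h = w).card := ⟨_, rfl⟩
  have hsum : ∀ q : ℕ, ∑ k, (S.θ k h) ^ q = ∑ i, (μ (v i) : LaurentSeries K) * v i ^ q := by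
    intro q
    rw [Finset.sum_comp (fun w => w ^ q) (fun k => S.θ k h), ← hZ, ← Finset.sum_coe_sort,
      ← Equiv.sum_comp ε]
    apply Finset.sum_congr rfl
    intro i _
    rw [nsmul_eq_mul, hμ, hv]
  have hμ0 : ∀ i, (μ (v i) : LaurentSeries K) ≠ 0 := by
    intro i
    have h1 : 0 < μ (v i) := by
      obtain ⟨k, hk⟩ := hmemZ _ (ε i).2
      rw [hμ, hv]
      exact Finset.card_pos.2 ⟨k, by simp [hk]⟩
    have h2 : μ (v i) ≤ m + 2 := by
      rw [hμ]
      exact (Finset.card_le_univ _).trans (by simp)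
    have h3 : ((μ (v i) : ℕ) : K) ≠ 0 := H.ne_zero h1 (lt_of_le_of_lt h2 H.big)
    intro h4
    apply h3
    have h5 : HahnSeries.C ((μ (v i) : ℕ) : K) = (0 : LaurentSeries K) := by
      rw [map_natCast]; exact h4
    exact (map_eq_zero (HahnSeries.C : K →+* LaurentSeries K)).1 h5
  -- the discriminant
  obtain ⟨M, hM⟩ : ∃ M : Matrix (Fin n) (Fin n) F,
    M = Matrix.of fun (i j : Fin n) => Algebra.trace F L (h ^ ((i : ℕ) + (j : ℕ))) := ⟨_, rfl⟩
  have hMO : InO K F S.t M.det := by
    rw [Matrix.det_apply]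
    apply InO.sum
    intro σ _
    have h1 : InO K F S.t (∏ i, M (σ i) i) := by
      apply InO.prod
      intro i _
      rw [hM]
      exact H.tr_A _ (S.A.pow_mem hhA _)
    rcases Int.units_eq_one_or (Equiv.Perm.sign σ) with h2 | h2
    · rw [h2, one_smul]; exact h1
    · rw [h2, Units.neg_smul, one_smul]; exact h1.neg
  -- at `t`
  obtain ⟨V, hV⟩ : ∃ V : Matrix (Fin n) (Fin n) (LaurentSeries K),
    V = Matrix.vandermonde v := ⟨_, rfl⟩
  have h1 : S.θ 0 (algebraMap F L M.det) =
      (∏ i, (μ (v i) : LaurentSeries K)) * (V.det * V.det) := by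
    have h2 : (∏ i, (μ (v i) : LaurentSeries K)) * (V.det * V.det) =
        (V.transpose * (Matrix.diagonal (fun i => (μ (v i) : LaurentSeries K)) * V)).det := by
      rw [Matrix.det_mul, Matrix.det_mul, Matrix.det_transpose, Matrix.det_diagonal]
      ring
    rw [h2]
    have h3 : S.θ 0 (algebraMap F L M.det) = ((S.θ 0).comp (algebraMap F L)) M.det := rfl
    rw [h3, RingHom.map_det]
    congr 1
    ext1 i j
    rw [RingHom.mapMatrix_apply, Matrix.map_apply, hM, Matrix.of_apply, RingHom.comp_apply,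
      H.θ_tr, Matrix.mul_apply, Finset.sum_congr rfl fun k _ => map_pow (S.θ k) h _, hsum]
    apply Finset.sum_congr rfl
    intro k _
    rw [Matrix.transpose_apply, Matrix.diagonal_mul, hV, Matrix.vandermonde_apply,
      Matrix.vandermonde_apply, _root_.pow_add]
    ring
  have hvinj : Function.Injective v := by
    intro i j hij
    rw [hv] at hij
    exact ε.injective (Subtype.ext hij)
  have hVne : V.det ≠ 0 := by
    rw [hV, Matrix.det_vandermonde_ne_zero_iff]
    exact hvinj
  have hθh : ∀ i, Lo 0 (S.θ i h) := by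
    intro i
    rw [hh, map_mul]
    have := (H.θ_lo i S.R).mul (h0 i)
    simpa using this
  have hvlo : ∀ i, Lo 0 (v i) := by
    intro i
    obtain ⟨k, hk⟩ := hmemZ _ (ε i).2
    rw [hv]
    simp only
    rw [← hk]
    exact hθh k
  have hVlo : Lo p V.det := by
    have ha : Lo p (S.θ 1 h - S.θ 0 h) := by
      have h4 : S.θ 1 h - S.θ 0 h = S.θ 0 (algebraMap K[X] L S.R) * (S.θ 1 f - S.θ 0 f) := by
        rw [hh, map_mul, map_mul, H.θ_P, H.θ_P]
        ring
      rw [h4]
      have := (H.θ_lo 0 S.R).mul (H.diff_lo f h0 hD)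
      simpa using this
    have hmem : ∀ k, S.θ k h ∈ Z := fun k => by
      rw [hZ]; exact Finset.mem_image_of_mem _ (Finset.mem_univ k)
    have hv0 : ∀ k, v (ε.symm ⟨S.θ k h, hmem k⟩) = S.θ k h := fun k => by
      rw [hv]; simp
    have hne : ε.symm ⟨S.θ 0 h, hmem 0⟩ ≠ ε.symm ⟨S.θ 1 h, hmem 1⟩ := by
      intro h5
      apply hhn
      rw [← hv0 0, ← hv0 1, h5]
    rcases lt_or_gt_of_ne hne with h5 | h5
    · rw [hV]
      apply lo_vandermonde v hvlo h5
      rw [hv0, hv0]
      exact ha
    · rw [hV]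
      apply lo_vandermonde v hvlo h5
      rw [hv0, hv0]
      have := ha.neg
      rwa [neg_sub] at this
  -- at infinity
  have h2 : Lo ((n * (n - 1) : ℕ) * (1 - r : ℤ)) (S.ψ 0 (algebraMap F L M.det)) := by
    have hψR : ∀ i, Lo (-(r + 1 : ℤ)) (S.ψ i (algebraMap K[X] L S.R)) := by
      intro i
      rw [H.ψ_P, Data.R, map_prod]
      have := Lo.prod (m := -1) Finset.univ (α := fun j => ev inf (X - C (S.b j)))
        (fun j _ => lo_ev_inf_sub (S.b j))
      simp only [Finset.card_univ, Fintype.card_fin] at this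
      exact this.mono (by push_cast; omega)
    have hψh : ∀ i, Lo (1 - r : ℤ) (S.ψ i h) := by
      intro i
      rw [hh, map_mul]
      exact ((hψR i).mul (hf.at_inf i)).mono (by omega)
    have h3 : S.ψ 0 (algebraMap F L M.det) = ((S.ψ 0).comp (algebraMap F L)) M.det := rfl
    rw [h3, RingHom.map_det, Matrix.det_apply]
    apply Lo.sum
    intro σ _
    have h4 : Lo ((n * (n - 1) : ℕ) * (1 - r : ℤ))
        (∏ i, ((S.ψ 0).comp (algebraMap F L)).mapMatrix M (σ i) i) := by
      have h5 := Lo.prod' Finset.univ (m := fun i => (((σ i : ℕ) + (i : ℕ) : ℕ) : ℤ) * (1 - r : ℤ))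
        (α := fun i => ((S.ψ 0).comp (algebraMap F L)).mapMatrix M (σ i) i) (by
          intro i _
          rw [RingHom.mapMatrix_apply, Matrix.map_apply, hM, Matrix.of_apply, RingHom.comp_apply,
            H.ψ_tr]
          apply Lo.sum
          intro k _
          rw [map_pow]
          exact (hψh k).pow _)
      refine h5.mono ?_
      rw [← Finset.sum_mul, ← Nat.cast_sum, Finset.sum_add_distrib,
        Equiv.sum_comp σ (fun i : Fin n => (i : ℕ)), ← mul_two,
        Fin.sum_univ_eq_sum_range (fun i => i) n, Finset.sum_range_id_mul_two]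
    rcases Int.units_eq_one_or (Equiv.Perm.sign σ) with h6 | h6
    · rw [h6, one_smul]; exact h4
    · rw [h6, Units.neg_smul, one_smul]; exact h4.neg
  have h3 : M.det = 0 := by
    apply H.key' M.det hMO (-(p : ℤ))
    · rw [h1]
      have h4 : Lo 0 (∏ i, (μ (v i) : LaurentSeries K)) := by
        have := Lo.prod (m := 0) Finset.univ (α := fun i => (μ (v i) : LaurentSeries K))
          (fun i _ => by
            have := Lo.C ((μ (v i) : ℕ) : K)
            rwa [map_natCast] at this)
        simpa using this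
      exact (h4.mul (hVlo.mul hVlo)).mono (by omega)
    · refine h2.mono ?_
      have hb := H.big'
      have hb2 : n * (n - 1) * (r - 1) < p := by
        refine lt_of_le_of_lt ?_ hb
        apply Nat.mul_le_mul_right
        apply Nat.mul_le_mul hnm
        omega
      rcases Nat.eq_zero_or_pos r with hr | hr
      · rw [hr]
        have := H.prime.pos
        push_cast
        have h7 : (0 : ℤ) ≤ (n : ℤ) * ((n - 1 : ℕ) : ℤ) := by positivity
        linarith
      · obtain ⟨r', rfl⟩ : ∃ r', r = r' + 1 := ⟨r - 1, by omega⟩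
        rw [Nat.add_sub_cancel] at hb2
        have hb' : (((n * (n - 1) * r' : ℕ)) : ℤ) < p := by exact_mod_cast hb2
        push_cast at hb' ⊢
        linarith
  rw [h3, map_zero, map_zero] at h1
  have h4 : (∏ i, (μ (v i) : LaurentSeries K)) ≠ 0 := Finset.prod_ne_zero_iff.2 fun i _ => hμ0 i
  exact hVne (by simpa [h4] using h1.symm)

theorem E_iter_C (a : K) (f : L) (q : ℕ) : S.E^[q] (algebraMap K[X] L (C a) * f) =
    algebraMap K[X] L (C a) * S.E^[q] f := H.E_iter_const (H.E_C a) f q

theorem E_iter_add (f g : L) (q : ℕ) : S.E^[q] (f + g) = S.E^[q] f + S.E^[q] g := by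
  induction q generalizing f g with
  | zero => rfl
  | succ q ih => rw [Function.iterate_succ_apply, map_add, ih]; rfl

/-- exact regular forms -/
def N (S : Data K L m r) (p : ℕ) (f : L) : Prop := S.Regular f ∧ S.E^[p - 1] f = 0

omit H in
theorem _root_.Pool.Agent.R992.MC.Data.N_def (S : Data K L m r) (p : ℕ) (f : L) :
    Data.Core.N S p f ↔ S.Regular f ∧ S.E^[p - 1] f = 0 := Iff.rfl

theorem N_add {f g : L} (hf : N S p f) (hg : N S p g) : N S p (f + g) :=
  ⟨⟨H.M_add f g hf.1.fin hg.1.fin,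
    fun i => by rw [map_add]; exact (hf.1.at_t i).add (hg.1.at_t i),
    fun i => by rw [map_add]; exact (hf.1.at_inf i).add (hg.1.at_inf i)⟩,
    by rw [H.E_iter_add, hf.2, hg.2, add_zero]⟩

theorem N_C (a : K) {f : L} (hf : N S p f) : N S p (algebraMap K[X] L (C a) * f) :=
  ⟨⟨H.M_C a f hf.1.fin,
    fun i => by
      rw [map_mul]
      exact ((H.θ_lo i (C a)).mul (hf.1.at_t i)).mono (by norm_num),
    fun i => by
      rw [map_mul, H.ψ_P, ev_C]
      exact ((Lo.C a).mul (hf.1.at_inf i)).mono (by norm_num)⟩,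
    by rw [H.E_iter_C, hf.2, mul_zero]⟩

theorem N_D {f : L} (hf : N S p f) : N S p (S.D f) := H.stable f hf.1 hf.2

theorem N_D_iter {f : L} (hf : N S p f) (q : ℕ) : N S p (S.D^[q] f) := by
  induction q with
  | zero => exact hf
  | succ q ih => rw [Function.iterate_succ_apply']; exact H.N_D ih

theorem d_c (q : ℕ) (hq : q + 1 < p) :
    S.d ((-1) ^ (q + 1) * S.t ^ (q + 1) * (((q + 1).factorial : K))⁻¹) =
      -((-1) ^ q * S.t ^ q * ((q.factorial : K))⁻¹) := by
  have h1 : S.d ((-1) ^ (q + 1) * (((q + 1).factorial : K))⁻¹) = 0 := by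
    rw [Derivation.leibniz, Derivation.leibniz_inv, Derivation.map_natCast, Derivation.leibniz_pow,
      Derivation.map_neg, Derivation.map_one_eq_zero]
    simp
  rw [show (-1 : K) ^ (q + 1) * S.t ^ (q + 1) * (((q + 1).factorial : K))⁻¹ =
    ((-1) ^ (q + 1) * (((q + 1).factorial : K))⁻¹) * S.t ^ (q + 1) by ring,
    Derivation.leibniz, h1, Derivation.leibniz_pow, H.d_t, Nat.add_sub_cancel]
  have h3 : ((q + 1 : ℕ) : K) ≠ 0 := H.ne_zero (by omega) hq
  have h4 := H.fact_ne (q := q) (by omega)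
  rw [Nat.factorial_succ, Nat.cast_mul]
  simp only [smul_eq_mul, nsmul_eq_mul, mul_one, mul_zero, add_zero, mul_inv]
  field_simp
  ring

theorem D_sum (f : L) (q : ℕ) (hq : q < p) :
    S.D (∑ i ∈ Finset.range (q + 1),
      algebraMap K[X] L (C ((-1) ^ i * S.t ^ i * ((i.factorial : K))⁻¹)) * S.D^[i] f) =
    algebraMap K[X] L (C ((-1) ^ q * S.t ^ q * ((q.factorial : K))⁻¹)) * S.D^[q + 1] f := by
  induction q with
  | zero =>
    simp only [zero_add, Finset.sum_range_one, pow_zero, Nat.factorial_zero, Nat.cast_one,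
      inv_one, mul_one, map_one, one_mul, Function.iterate_zero, id_eq, Function.iterate_one]
  | succ q ih =>
    rw [Finset.sum_range_succ, map_add, ih (by omega), Derivation.leibniz, H.D_C, H.d_c q hq,
      Function.iterate_succ_apply' S.D (q + 1)]
    simp only [smul_eq_mul, map_neg]
    ring

/-- **Theorem**: for an exact regular form `f dx` the two expansions at `t` which are exchanged by
the monodromy agree. -/
theorem main (f : L) (hf : N S p f) : S.θ 0 f = S.θ 1 f := by
  have hp := H.prime.two_le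
  have key : ∀ (k : ℕ) (f : L), N S p f → S.D^[k] f = 0 → S.θ 0 f = S.θ 1 f := by
    intro k
    induction k with
    | zero =>
      intro f _ h
      rw [show f = 0 from h, map_zero, map_zero]
    | succ k ih =>
      intro f hf hk
      obtain ⟨c, hc⟩ : ∃ c : ℕ → K, c = fun i => (-1) ^ i * S.t ^ i * ((i.factorial : K))⁻¹ :=
        ⟨_, rfl⟩
      obtain ⟨g, hg⟩ : ∃ g : L, g = ∑ i ∈ Finset.range (p - 1 + 1),
        algebraMap K[X] L (C (c i)) * S.D^[i] f := ⟨_, rfl⟩
      have h1 : S.D g = 0 := by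
        rw [hg, hc, H.D_sum f (p - 1) (by omega), show p - 1 + 1 = p by omega, H.nil, mul_zero]
      have h2 : N S p g := by
        rw [hg]
        have : ∀ s : Finset ℕ, N S p (∑ i ∈ s, algebraMap K[X] L (C (c i)) * S.D^[i] f) := by
          intro s
          induction s using Finset.induction_on with
          | empty =>
            have := H.N_C 0 hf
            simpa using this
          | insert a s ha ihs =>
            rw [Finset.sum_insert ha]
            exact H.N_add (H.N_C _ (H.N_D_iter hf a)) ihs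
        exact this _
      have h3 := H.eq_of_const g h2.1 (H.lo_zero g h2.1 h2.2) h1
      rw [hg, Finset.sum_range_succ', map_add, map_add] at h3
      have h4 : S.θ 0 (∑ i ∈ Finset.range (p - 1), algebraMap K[X] L (C (c (i + 1))) *
          S.D^[i + 1] f) = S.θ 1 (∑ i ∈ Finset.range (p - 1), algebraMap K[X] L (C (c (i + 1))) *
          S.D^[i + 1] f) := by
        rw [map_sum, map_sum]
        apply Finset.sum_congr rfl
        intro i hi
        clear hi
        rw [map_mul, map_mul, H.θ_P, H.θ_P, ih (S.D^[i + 1] f) (H.N_D_iter hf _)]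
        rw [← Function.iterate_add_apply, show k + (i + 1) = i + (k + 1) by ring,
          Function.iterate_add_apply, hk]
        clear ih hk h1 h2 h3 hg
        induction i with
        | zero => rfl
        | succ i ihi => rw [Function.iterate_succ_apply', ihi, map_zero]
      rw [h4] at h3
      have h5 := add_left_cancel h3
      rw [hc] at h5
      simpa using h5
  exact key p f hf (H.nil f)

/-- exact regular forms which come from the line vanish -/
theorem range_zero (f : L) (hf : N S p f) (hM : f ∈ (algebraMap F L).range) : f = 0 := by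
  obtain ⟨e, rfl⟩ := hM
  have hn : ((m + 2 : ℕ) : K) ≠ 0 := H.ne_zero (by omega) H.big
  have h1 : Algebra.trace F L (algebraMap F L e) = algebraMap K[X] F (C ((m + 2 : ℕ) : K)) * e := by
    apply (algebraMap F L).injective
    apply (S.θ 0).injective
    rw [H.θ_tr, Finset.sum_congr rfl fun j _ => H.θ_F j 0 e, Finset.sum_const, Finset.card_univ,
      Fintype.card_fin, map_mul, map_mul, htow, H.θ_P, ev_C, map_natCast, nsmul_eq_mul]
  have h2 : InO K F S.t e := by
    have h3 := H.M_tr _ hf.1.fin 1 S.A.one_mem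
    rw [mul_one, h1] at h3
    have h4 := (InO.poly (F := F) S.t (C (((m + 2 : ℕ) : K)⁻¹))).mul h3
    rw [← mul_assoc, ← map_mul, ← C_mul, inv_mul_cancel₀ hn, map_one, map_one, one_mul] at h4
    exact h4
  have h3 := H.key' e h2 0 (by simpa using H.lo_zero _ hf.1 hf.2 0)
    ((hf.1.at_inf 0).mono (by norm_num))
  rw [h3, map_zero]

end Data.Core
end Pool.Agent.R992.MC
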