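import Pool.Agent.R992.MC.Setup

/-!
# The pairing argument
-/

set_option autoImplicit false
set_option linter.unusedSectionVars false

namespace Pool.Agent.R992.MC

open Polynomial

variable {K F L : Type} [Field K] [Field F] [Field L]
  [Algebra K[X] F] [IsFractionRing K[X] F] [Algebra F L] [Algebra K[X] L] [IsScalarTower K[X] F L]
  {m r p : ℕ} {S : Data K L m r}

namespace Data.Core

theorem htow (P : K[X]) : algebraMap F L (algebraMap K[X] F P) = algebraMap K[X] L P :=
  (IsScalarTower.algebraMap_apply K[X] F L P).symm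

variable (H : Data.Core F p S)
include H

theorem E_poly (P : K[X]) : S.E (algebraMap K[X] L P) = algebraMap K[X] L (derivative P) := by
  induction P using Polynomial.induction_on with
  | C a => rw [H.E_C, derivative_C, map_zero]
  | add P Q hP hQ => rw [map_add, map_add, hP, hQ, derivative_add, map_add]
  | monomial n a ih =>
    rw [pow_succ, ← mul_assoc, map_mul, Derivation.leibniz, ih, H.E_X,
      derivative_mul (f := C a * X ^ n), derivative_X, mul_one]
    simp only [smul_eq_mul, map_add, map_mul, mul_one]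
    ring

theorem D_poly (P : K[X]) : ∃ P' : K[X], S.D (algebraMap K[X] L P) = algebraMap K[X] L P' :=
  der_poly S.D (fun a => ⟨_, H.D_C a⟩) ⟨0, by rw [H.D_X, map_zero]⟩ P

theorem E_poly' (P : K[X]) : ∃ P' : K[X], S.E (algebraMap K[X] L P) = algebraMap K[X] L P' :=
  ⟨_, H.E_poly P⟩

theorem θ_F (i j : Fin (m + 2)) (e : F) : S.θ i (algebraMap F L e) = S.θ j (algebraMap F L e) := by
  obtain ⟨P, Q, hQ, rfl⟩ := IsFractionRing.div_surjective K[X] (K := F) e
  rw [map_div₀, map_div₀, map_div₀, htow, htow, H.θ_P, H.θ_P, H.θ_P, H.θ_P]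

theorem ψ_F (i j : Fin (m + 2)) (e : F) : S.ψ i (algebraMap F L e) = S.ψ j (algebraMap F L e) := by
  obtain ⟨P, Q, hQ, rfl⟩ := IsFractionRing.div_surjective K[X] (K := F) e
  rw [map_div₀, map_div₀, map_div₀, htow, htow, H.ψ_P, H.ψ_P, H.ψ_P, H.ψ_P]

/-- the trace commutes with `E` -/
theorem tr_E (z : L) : algebraMap F L (Algebra.trace F L (S.E z)) =
    S.E (algebraMap F L (Algebra.trace F L z)) := by
  obtain ⟨e', he', -⟩ := der_F S.E H.E_poly' S.t (Algebra.trace F L z)
  rw [he']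
  congr 1
  have hinj : Function.Injective ((S.ψ 0).comp (algebraMap F L)) := RingHom.injective _
  apply hinj
  rw [RingHom.comp_apply, RingHom.comp_apply, ← he', H.ψ_tr]
  ext k
  rw [H.ψE, H.ψ_tr, HahnSeries.coeff_sum, HahnSeries.coeff_sum, Finset.mul_sum]
  exact Finset.sum_congr rfl fun j _ => H.ψE j z k

/-- the trace commutes with `D` -/
theorem tr_D (z : L) : algebraMap F L (Algebra.trace F L (S.D z)) =
    S.D (algebraMap F L (Algebra.trace F L z)) := by
  obtain ⟨e', he', -⟩ := der_F S.D H.D_poly S.t (Algebra.trace F L z)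
  rw [he']
  congr 1
  have hinj : Function.Injective ((S.ψ 0).comp (algebraMap F L)) := RingHom.injective _
  apply hinj
  rw [RingHom.comp_apply, RingHom.comp_apply, ← he', H.ψ_tr]
  ext k
  rw [H.ψD, H.ψ_tr, HahnSeries.coeff_sum, HahnSeries.coeff_sum, map_sum]
  exact Finset.sum_congr rfl fun j _ => H.ψD j z k

theorem InO_E {z : L} (h : InO K F S.t (Algebra.trace F L z)) :
    InO K F S.t (Algebra.trace F L (S.E z)) := by
  obtain ⟨e', he', h'⟩ := der_F S.E H.E_poly' S.t (Algebra.trace F L z)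
  have : Algebra.trace F L (S.E z) = e' := (algebraMap F L).injective (by rw [H.tr_E, he'])
  rw [this]
  exact h' h

theorem InO_D {z : L} (h : InO K F S.t (Algebra.trace F L z)) :
    InO K F S.t (Algebra.trace F L (S.D z)) := by
  obtain ⟨e', he', h'⟩ := der_F S.D H.D_poly S.t (Algebra.trace F L z)
  have : Algebra.trace F L (S.D z) = e' := (algebraMap F L).injective (by rw [H.tr_D, he'])
  rw [this]
  exact h' h

theorem InO_E_iter {z : L} (h : InO K F S.t (Algebra.trace F L z)) (n : ℕ) :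
    InO K F S.t (Algebra.trace F L (S.E^[n] z)) := by
  induction n with
  | zero => exact h
  | succ n ih => rw [Function.iterate_succ_apply']; exact H.InO_E ih

/-- constants of `E` -/
theorem E_iter_const {κ : L} (h : S.E κ = 0) (g : L) (n : ℕ) :
    S.E^[n] (κ * g) = κ * S.E^[n] g := by
  induction n with
  | zero => rfl
  | succ n ih =>
    rw [Function.iterate_succ_apply', ih, Derivation.leibniz, h, Function.iterate_succ_apply']
    simp

theorem ne_zero {j : ℕ} (h0 : 0 < j) (h : j < p) : (j : K) ≠ 0 := by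
  have := H.char
  intro h1
  rw [CharP.cast_eq_zero_iff K p] at h1
  exact absurd (Nat.le_of_dvd h0 h1) (by omega)

theorem two_ne : (2 : K) ≠ 0 := by
  have h2 := H.prime.two_le
  have h3 := H.two
  have := H.ne_zero (j := 2) (by norm_num) (by omega)
  exact_mod_cast this

end Data.Core

/-- `a` as an element of `L` -/
noncomputable abbrev cst (a : K) : L := algebraMap K[X] L (C a)

/-- integration by parts: a primitive of `f` if the Cartier operator kills `f dx` -/
noncomputable def Data.Fc (S : Data K L m r) (c : K) (f : L) (q : ℕ) : L :=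
  ∑ i ∈ Finset.range q, cst (L := L) ((-1) ^ i * ((i + 1).factorial : K)⁻¹) *
    (algebraMap K[X] L ((X - C c) ^ (i + 1)) * S.E^[i] f)

namespace Data.Core

variable (H : Data.Core F p S)
include H

theorem E_cst_mul (a : K) (z : L) : S.E (cst a * z) = cst a * S.E z := by
  rw [Derivation.leibniz, H.E_C]
  simp

theorem fact_ne {q : ℕ} (hq : q < p) : (q.factorial : K) ≠ 0 := by
  have := H.char
  intro h
  rw [CharP.cast_eq_zero_iff K p, H.prime.dvd_factorial] at h
  omega

theorem E_Fc (c : K) (f : L) : ∀ q : ℕ, q < p → S.E (S.Fc c f q) =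
    f - cst ((-1) ^ q * ((q.factorial : K))⁻¹) *
      (algebraMap K[X] L ((X - C c) ^ q) * S.E^[q] f) := by
  intro q
  induction q with
  | zero => intro _; simp [Data.Fc, cst]
  | succ q ih =>
    intro hq
    have h1 := ih (by omega)
    unfold Data.Fc at h1 ⊢
    rw [Finset.sum_range_succ, map_add, h1, H.E_cst_mul, Derivation.leibniz, H.E_poly,
      derivative_X_sub_C_pow, Nat.add_sub_cancel, Function.iterate_succ_apply']
    simp only [smul_eq_mul]
    have h2 : (cst ((-1) ^ q * ((q.factorial : K))⁻¹) : L) =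
        cst ((-1) ^ q * (((q + 1).factorial : K))⁻¹) * cst ((q + 1 : ℕ) : K) := by
      unfold cst
      rw [← map_mul, ← C_mul]
      congr 2
      have h3 : ((q + 1 : ℕ) : K) ≠ 0 := H.ne_zero (by omega) hq
      have h4 := H.fact_ne (q := q) (by omega)
      rw [Nat.factorial_succ, Nat.cast_mul, mul_inv]
      field_simp
    have h5 : (cst ((-1) ^ (q + 1) * (((q + 1).factorial : K))⁻¹) : L) =
        - cst ((-1) ^ q * (((q + 1).factorial : K))⁻¹) := by
      unfold cst
      rw [← map_neg, ← C_neg]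
      congr 2
      ring
    rw [h2, h5, map_mul]
    unfold cst
    ring

theorem E_Fc' {f : L} (hf : S.E^[p - 1] f = 0) (c : K) : S.E (S.Fc c f (p - 1)) = f := by
  have hp := H.prime.pos
  rw [H.E_Fc c f (p - 1) (by omega), hf]
  simp

theorem θ_E {i : Fin (m + 2)} {z : L} {a : ℤ} (h : Lo a (S.θ i z)) : Lo (a - 2) (S.θ i (S.E z)) :=
  fun k hk => by rw [H.θE, h _ (by omega), mul_zero]

theorem θ_E_iter {i : Fin (m + 2)} {z : L} {a : ℤ} (h : Lo a (S.θ i z)) (q : ℕ) :
    Lo (a - 2 * q) (S.θ i (S.E^[q] z)) := by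
  induction q with
  | zero => simpa using h
  | succ q ih =>
    rw [Function.iterate_succ_apply']
    exact (H.θ_E ih).mono (by push_cast; omega)

theorem ψ_E {i : Fin (m + 2)} {z : L} {a : ℤ} (h : Lo a (S.ψ i z)) : Lo (a + 1) (S.ψ i (S.E z)) :=
  fun k hk => by rw [H.ψE, h _ (by omega), mul_zero]

theorem ψ_E_iter {i : Fin (m + 2)} {z : L} {a : ℤ} (h : Lo a (S.ψ i z)) (q : ℕ) :
    Lo (a + q) (S.ψ i (S.E^[q] z)) := by
  induction q with
  | zero => simpa using h
  | succ q ih =>
    rw [Function.iterate_succ_apply']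
    exact (H.ψ_E ih).mono (by push_cast; omega)

theorem ψ_D {i : Fin (m + 2)} {z : L} {a : ℤ} (h : Lo a (S.ψ i z)) : Lo a (S.ψ i (S.D z)) :=
  fun k hk => by rw [H.ψD, h _ hk, map_zero]

theorem θ_D (i : Fin (m + 2)) (z : L) (k : ℤ) :
    (S.θ i (S.D z)).coeff k = S.d ((S.θ i z).coeff k) - (S.θ i (S.E z)).coeff k := by
  have h := H.θD i z k
  rw [map_add, HahnSeries.coeff_add] at h
  rw [← h]; ring

theorem θ_lo (i : Fin (m + 2)) (P : K[X]) : Lo 0 (S.θ i (algebraMap K[X] L P)) := by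
  rw [H.θ_P]; exact (lo_ev_pt S.t P).1

theorem θ_Fc {i : Fin (m + 2)} {f : L} (h : Lo (-1) (S.θ i f)) (q : ℕ) :
    Lo 1 (S.θ i (S.Fc S.t f q)) := by
  unfold Data.Fc
  rw [map_sum]
  apply Lo.sum
  intro j _
  rw [map_mul, map_mul]
  have h1 : Lo (((j + 1 : ℕ) : ℤ) * 2) (S.θ i (algebraMap K[X] L ((X - C S.t) ^ (j + 1)))) := by
    rw [H.θ_P, map_pow, ev_pt_sub]
    exact (Lo.single 2 1).pow (j + 1)
  have h2 := (H.θ_lo i (C ((-1) ^ j * ((j + 1).factorial : K)⁻¹))).mul (h1.mul (H.θ_E_iter h j))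
  exact h2.mono (by push_cast; omega)

theorem ψ_Fc {i : Fin (m + 2)} {f : L} (h : Lo 2 (S.ψ i f)) (q : ℕ) :
    Lo 1 (S.ψ i (S.Fc S.t f q)) := by
  unfold Data.Fc
  rw [map_sum]
  apply Lo.sum
  intro j _
  rw [map_mul, map_mul]
  have h1 : Lo (((j + 1 : ℕ) : ℤ) * (-1)) (S.ψ i (algebraMap K[X] L ((X - C S.t) ^ (j + 1)))) := by
    rw [H.ψ_P, map_pow]
    exact (lo_ev_inf_sub S.t).pow (j + 1)
  have h0 : Lo 0 (S.ψ i (cst ((-1) ^ j * ((j + 1).factorial : K)⁻¹))) := by
    rw [H.ψ_P, ev_C]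
    exact Lo.C _
  have h2 := h0.mul (h1.mul (H.ψ_E_iter h j))
  exact h2.mono (by push_cast; omega)

theorem A_R (f : L) (hf : algebraMap K[X] L S.R * f ∈ S.A) (q : ℕ) :
    algebraMap K[X] L (S.R ^ (q + 1)) * S.E^[q] f ∈ S.A := by
  induction q with
  | zero => simpa using hf
  | succ q ih =>
    have h1 := H.E_A _ ih
    rw [Derivation.leibniz, H.E_poly] at h1
    simp only [smul_eq_mul] at h1
    have h2 := S.A.mul_mem (H.A_P (C ((q + 1 : ℕ) : K) * derivative S.R)) ih
    have h3 := S.A.sub_mem h1 h2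
    convert h3 using 1
    rw [Function.iterate_succ_apply', derivative_pow, Nat.add_sub_cancel]
    simp only [map_mul, map_pow]
    ring

theorem exists_prim (f : L) (hf : algebraMap K[X] L S.R * f ∈ S.A)
    (hC : S.E^[p - 1] f = 0) : ∃ G ∈ S.A, S.E G = f := by
  classical
  have hp := H.prime.pos
  have := H.char
  have : Fact p.Prime := ⟨H.prime⟩
  obtain ⟨ℓ, hℓ⟩ : ∃ ℓ : Fin (r + 1) → K[X], ℓ = fun j => Lagrange.basis Finset.univ S.b j :=
    ⟨_, rfl⟩
  have h1 : ∑ j, ℓ j = 1 := by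
    rw [hℓ]
    exact Lagrange.sum_basis (H.b_inj.injOn) Finset.univ_nonempty
  have h2 : ∀ j, ∃ c : K, (X - C (S.b j)) * ℓ j = C c * S.R := by
    intro j
    refine ⟨∏ i ∈ Finset.univ.erase j, (S.b j - S.b i)⁻¹, ?_⟩
    rw [hℓ, Data.R, ← Finset.mul_prod_erase Finset.univ _ (Finset.mem_univ j)]
    simp only [Lagrange.basis, Lagrange.basisDivisor]
    rw [Finset.prod_mul_distrib, map_prod]
    ring
  refine ⟨∑ j, algebraMap K[X] L (ℓ j ^ p) * S.Fc (S.b j) f (p - 1), ?_, ?_⟩
  · apply S.A.sum_mem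
    intro j _
    unfold Data.Fc
    rw [Finset.mul_sum]
    apply S.A.sum_mem
    intro q hq
    rw [Finset.mem_range] at hq
    obtain ⟨c, hc⟩ := h2 j
    have h3 := S.A.mul_mem (H.A_P (C (((-1) ^ q * ((q + 1).factorial : K)⁻¹)) *
      (C c ^ (q + 1) * ℓ j ^ (p - (q + 1))))) (H.A_R f hf q)
    convert h3 using 1
    have h4 : ℓ j ^ p * (X - C (S.b j)) ^ (q + 1) =
        C c ^ (q + 1) * ℓ j ^ (p - (q + 1)) * S.R ^ (q + 1) := by
      have h5 : ℓ j ^ p = ℓ j ^ (p - (q + 1)) * ℓ j ^ (q + 1) := by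
        rw [← _root_.pow_add]; congr 1; omega
      rw [h5, mul_assoc, ← mul_pow, mul_comm (ℓ j) (X - C (S.b j)), hc, mul_pow]
      ring
    have h6 := congrArg (algebraMap K[X] L) h4
    simp only [map_mul] at h6 ⊢
    unfold cst
    simp only [map_mul] at h6 ⊢
    linear_combination (algebraMap K[X] L (C ((-1) ^ q)) *
      algebraMap K[X] L (C (((q + 1).factorial : K)⁻¹)) * S.E^[q] f) * h6
  · rw [map_sum]
    have h3 : ∀ j, S.E (algebraMap K[X] L (ℓ j ^ p) * S.Fc (S.b j) f (p - 1)) =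
        algebraMap K[X] L (ℓ j ^ p) * f := by
      intro j
      rw [Derivation.leibniz, H.E_Fc' hC, H.E_poly, derivative_pow, CharP.cast_eq_zero K p]
      simp
    rw [Finset.sum_congr rfl fun j _ => h3 j, ← Finset.sum_mul, ← map_sum, ← sum_pow_char, h1]
    simp

end Data.Core
end Pool.Agent.R992.MC
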