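import Pool.Agent.R992.MC.Defs

/-!
# Laurent series: order conditions and the key lemma on the projective line

`Lo m α` says that all coefficients of `α` below `m` vanish.
-/

set_option autoImplicit false

namespace Pool.Agent.R992.MC

open Polynomial HahnSeries

variable {K : Type} [Field K]

theorem Lo.mono {m m' : ℤ} {α : LaurentSeries K} (h : Lo m' α) (hm : m ≤ m') : Lo m α :=
  fun k hk => h k (lt_of_lt_of_le hk hm)

theorem Lo.zero (m : ℤ) : Lo m (0 : LaurentSeries K) := fun k _ => by simp

theorem Lo.add {m : ℤ} {α β : LaurentSeries K} (h : Lo m α) (h' : Lo m β) : Lo m (α + β) :=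
  fun k hk => by rw [HahnSeries.coeff_add, h k hk, h' k hk, add_zero]

theorem Lo.neg {m : ℤ} {α : LaurentSeries K} (h : Lo m α) : Lo m (-α) :=
  fun k hk => by rw [HahnSeries.coeff_neg, h k hk, neg_zero]

theorem Lo.sub {m : ℤ} {α β : LaurentSeries K} (h : Lo m α) (h' : Lo m β) : Lo m (α - β) :=
  fun k hk => by rw [HahnSeries.coeff_sub, h k hk, h' k hk, sub_zero]

theorem Lo.sum {ι : Type} {m : ℤ} (s : Finset ι) {α : ι → LaurentSeries K}
    (h : ∀ i ∈ s, Lo m (α i)) : Lo m (∑ i ∈ s, α i) := by
  classical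
  induction s using Finset.induction_on with
  | empty => simpa using Lo.zero m
  | insert a s ha ih =>
    rw [Finset.sum_insert ha]
    exact (h a (Finset.mem_insert_self a s)).add (ih fun i hi => h i (Finset.mem_insert_of_mem hi))

theorem Lo.mul {a b : ℤ} {α β : LaurentSeries K} (h : Lo a α) (h' : Lo b β) :
    Lo (a + b) (α * β) := by
  intro k hk
  rw [HahnSeries.coeff_mul]
  apply Finset.sum_eq_zero
  rintro ⟨i, j⟩ hij
  rw [Finset.mem_antidiagonal] at hij
  simp only at hij
  obtain ⟨-, -, hij⟩ := hij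
  simp only
  by_cases hi : i < a
  · rw [h i hi, zero_mul]
  · rw [h' j (by omega), mul_zero]

theorem Lo.coeff_mul {a b : ℤ} {α β : LaurentSeries K} (h : Lo a α) (h' : Lo b β) :
    (α * β).coeff (a + b) = α.coeff a * β.coeff b := by
  classical
  rw [HahnSeries.coeff_mul]
  by_cases hα : α.coeff a = 0
  · rw [hα, zero_mul]
    apply Finset.sum_eq_zero
    rintro ⟨i, j⟩ hij
    rw [Finset.mem_antidiagonal] at hij
    simp only at hij
    obtain ⟨-, -, hij⟩ := hij
    simp only
    rcases lt_trichotomy i a with hi | hi | hi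
    · rw [h i hi, zero_mul]
    · rw [hi, hα, zero_mul]
    · rw [h' j (by omega), mul_zero]
  by_cases hβ : β.coeff b = 0
  · rw [hβ, mul_zero]
    apply Finset.sum_eq_zero
    rintro ⟨i, j⟩ hij
    rw [Finset.mem_antidiagonal] at hij
    simp only at hij
    obtain ⟨-, -, hij⟩ := hij
    simp only
    rcases lt_trichotomy i a with hi | hi | hi
    · rw [h i hi, zero_mul]
    · rw [show j = b by omega, hβ, mul_zero]
    · rw [h' j (by omega), mul_zero]
  rw [Finset.sum_eq_single (a, b)]
  · rintro ⟨i, j⟩ hij hne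
    rw [Finset.mem_antidiagonal] at hij
    simp only at hij
    obtain ⟨-, -, hij⟩ := hij
    simp only
    rcases lt_trichotomy i a with hi | hi | hi
    · rw [h i hi, zero_mul]
    · exact absurd (by rw [hi, show j = b by omega]) hne
    · rw [h' j (by omega), mul_zero]
  · intro hn
    exact absurd (Finset.mem_antidiagonal.2 ⟨by simpa using hα, by simpa using hβ, rfl⟩) hn

theorem Lo.one : Lo 0 (1 : LaurentSeries K) := by
  intro k hk
  rw [HahnSeries.coeff_one, if_neg hk.ne]

theorem Lo.C (a : K) : Lo 0 (HahnSeries.C a : LaurentSeries K) := by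
  intro k hk
  rw [HahnSeries.C_apply, HahnSeries.coeff_single_of_ne hk.ne]

theorem Lo.single (m : ℤ) (a : K) : Lo m (HahnSeries.single m a : LaurentSeries K) := by
  intro k hk
  rw [HahnSeries.coeff_single_of_ne hk.ne]

theorem Lo.pow {a : ℤ} {α : LaurentSeries K} (h : Lo a α) (n : ℕ) : Lo (n * a) (α ^ n) := by
  induction n with
  | zero => simpa using Lo.one
  | succ n ih =>
    rw [pow_succ]
    have := ih.mul h
    rwa [show ((n + 1 : ℕ) : ℤ) * a = n * a + a by push_cast; ring]

theorem Lo.pow0 {α : LaurentSeries K} (h : Lo 0 α) (n : ℕ) : Lo 0 (α ^ n) := by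
  have := h.pow n
  simpa using this

theorem Lo.prod {ι : Type} {m : ℤ} (s : Finset ι) {α : ι → LaurentSeries K}
    (h : ∀ i ∈ s, Lo m (α i)) : Lo (s.card * m) (∏ i ∈ s, α i) := by
  classical
  induction s using Finset.induction_on with
  | empty => simpa using Lo.one
  | insert a s ha ih =>
    rw [Finset.prod_insert ha, Finset.card_insert_of_notMem ha]
    have := (h a (Finset.mem_insert_self a s)).mul
      (ih fun i hi => h i (Finset.mem_insert_of_mem hi))
    rwa [show ((s.card + 1 : ℕ) : ℤ) * m = m + s.card * m by push_cast; ring]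

/-- evaluation of a polynomial at a Laurent series -/
noncomputable abbrev ev (u : LaurentSeries K) : K[X] →+* LaurentSeries K :=
  Polynomial.eval₂RingHom HahnSeries.C u

theorem ev_C (u : LaurentSeries K) (a : K) : ev u (Polynomial.C a) = HahnSeries.C a := by
  simp [ev]

theorem ev_X (u : LaurentSeries K) : ev u Polynomial.X = u := by
  simp [ev]

/-- the point `t + s ^ 2` -/
noncomputable abbrev pt (t : K) : LaurentSeries K := HahnSeries.C t + HahnSeries.single 2 1

/-- the point `1 / w` -/
noncomputable abbrev inf : LaurentSeries K := HahnSeries.single (-1) 1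

theorem ev_pt_sub (t : K) : ev (pt t) (X - Polynomial.C t) = HahnSeries.single 2 1 := by
  rw [map_sub, ev_X, ev_C]
  simp [pt]

theorem lo_pt (t : K) : Lo 0 (pt t) := (Lo.C t).add ((Lo.single 2 1).mono (by norm_num))

theorem lo_ev_pt (t : K) (P : K[X]) : Lo 0 (ev (pt t) P) ∧ (ev (pt t) P).coeff 0 = P.eval t := by
  induction P using Polynomial.induction_on' with
  | add P Q hP hQ =>
    rw [map_add, HahnSeries.coeff_add, eval_add, hP.2, hQ.2]
    exact ⟨hP.1.add hQ.1, rfl⟩
  | monomial n a =>
    rw [← Polynomial.C_mul_X_pow_eq_monomial, map_mul, map_pow, ev_C, ev_X]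
    have hp : ∀ n : ℕ, Lo 0 ((pt t) ^ n) ∧ ((pt t) ^ n).coeff 0 = t ^ n := by
      intro n
      induction n with
      | zero => exact ⟨by simpa using Lo.one, by simp⟩
      | succ n ih =>
        have h2 := ih.1.mul (lo_pt t)
        have h3 := ih.1.coeff_mul (lo_pt t)
        rw [add_zero] at h2 h3
        refine ⟨by rwa [pow_succ], ?_⟩
        rw [pow_succ, h3, ih.2, pow_succ]
        congr 1
        rw [HahnSeries.coeff_add, HahnSeries.C_apply, HahnSeries.coeff_single_same,
          HahnSeries.coeff_single_of_ne (by norm_num), add_zero]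
    have h2 := (Lo.C a).mul (hp n).1
    have h3 := (Lo.C a).coeff_mul (hp n).1
    rw [add_zero] at h2 h3
    refine ⟨h2, ?_⟩
    rw [h3, (hp n).2, HahnSeries.C_apply, HahnSeries.coeff_single_same]
    simp

theorem dvd_of_lo (t : K) (k : ℕ) : ∀ P : K[X], Lo (2 * k) (ev (pt t) P) →
    (X - Polynomial.C t) ^ k ∣ P := by
  induction k with
  | zero => intro P _; simp
  | succ k ih =>
    intro P hP
    have h1 : (X - Polynomial.C t) ∣ P := by
      rw [Polynomial.dvd_iff_isRoot, Polynomial.IsRoot.def, ← (lo_ev_pt t P).2]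
      exact hP 0 (by positivity)
    obtain ⟨Q, rfl⟩ := h1
    rw [pow_succ']
    apply mul_dvd_mul_left
    apply ih
    intro j hj
    have h2 := hP (j + 2) (by push_cast; omega)
    rw [map_mul, ev_pt_sub, HahnSeries.coeff_single_mul_add, one_mul] at h2
    exact h2

theorem coeff_ev_inf (P : K[X]) (j : ℕ) : (ev inf P).coeff (-(j : ℤ)) = P.coeff j := by
  induction P using Polynomial.induction_on' with
  | add P Q hP hQ => rw [map_add, HahnSeries.coeff_add, Polynomial.coeff_add, hP, hQ]
  | monomial n a =>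
    rw [← Polynomial.C_mul_X_pow_eq_monomial, map_mul, map_pow, ev_C, ev_X]
    have hp : ∀ n : ℕ, (inf : LaurentSeries K) ^ n = HahnSeries.single (-(n : ℤ)) 1 := by
      intro n
      induction n with
      | zero => simp
      | succ n ih =>
        rw [pow_succ, ih, inf, HahnSeries.single_mul_single, one_mul]
        congr 1
        push_cast
        ring
    rw [hp, HahnSeries.C_apply, HahnSeries.single_mul_single, zero_add, mul_one,
      Polynomial.coeff_C_mul, Polynomial.coeff_X_pow]
    by_cases h : j = n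
    · rw [h, HahnSeries.coeff_single_same]
      simp
    · rw [HahnSeries.coeff_single_of_ne, if_neg h, mul_zero]
      intro h2
      apply h
      omega

theorem lo_ev_inf_sub (t : K) : Lo (-1) (ev inf (X - Polynomial.C t)) := by
  rw [map_sub, ev_X, ev_C]
  exact (Lo.single (-1) 1).sub ((Lo.C t).mono (by norm_num))

/-- **Key lemma**: a rational function with poles at most at `t` and infinity, of order `≤ k` at
`t` and vanishing to order `k + 1` at infinity, is zero. -/
theorem key {F : Type} [Field F] [Algebra K[X] F] [IsFractionRing K[X] F] (t : K)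
    (ρ ρ' : F →+* LaurentSeries K)
    (hρ : ∀ P, ρ (algebraMap K[X] F P) = ev (pt t) P)
    (hρ' : ∀ P, ρ' (algebraMap K[X] F P) = ev inf P) (e : F)
    (he : ∃ (N : ℕ) (P : K[X]), algebraMap K[X] F ((X - Polynomial.C t) ^ N) * e =
      algebraMap K[X] F P) (k : ℤ) (h1 : Lo (-2 * k) (ρ e)) (h2 : Lo (k + 1) (ρ' e)) : e = 0 := by
  obtain ⟨N, P, he⟩ := he
  obtain ⟨M, hM⟩ : ∃ M : ℕ, (k.natAbs : ℤ) = M := ⟨k.natAbs, rfl⟩
  obtain ⟨N', hN'⟩ : ∃ N' : ℕ, N' = N + k.natAbs := ⟨_, rfl⟩
  obtain ⟨Q, hQ⟩ : ∃ Q : K[X], Q = (X - Polynomial.C t) ^ k.natAbs * P := ⟨_, rfl⟩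
  have he' : algebraMap K[X] F ((X - Polynomial.C t) ^ N') * e = algebraMap K[X] F Q := by
    rw [hQ, hN', map_mul, ← he, _root_.pow_add, map_mul]
    ring
  obtain ⟨D, hD⟩ : ∃ D : ℕ, (D : ℤ) = N' - k := ⟨(N' - k).toNat, by omega⟩
  -- divisibility
  have h3 : (X - Polynomial.C t) ^ D ∣ Q := by
    apply dvd_of_lo
    rw [← hρ, ← he', map_mul, hρ, map_pow, ev_pt_sub]
    have h4 : Lo ((N' : ℤ) * 2) ((HahnSeries.single 2 1 : LaurentSeries K) ^ N') :=
      (Lo.single 2 1).pow N'
    exact (h4.mul h1).mono (by omega)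
  -- degree
  have h4 : ∀ j : ℕ, D ≤ j → Q.coeff j = 0 := by
    intro j hj
    rw [← coeff_ev_inf, ← hρ', ← he', map_mul, hρ', map_pow]
    have h5 := ((lo_ev_inf_sub t).pow N').mul h2
    exact h5 _ (by omega)
  have h5 : Q = 0 := by
    by_contra hne
    have h6 := Polynomial.natDegree_le_of_dvd h3 hne
    rw [Polynomial.natDegree_pow, Polynomial.natDegree_X_sub_C, mul_one] at h6
    have h7 := h4 Q.natDegree h6
    rw [Polynomial.coeff_natDegree] at h7
    exact hne (Polynomial.leadingCoeff_eq_zero.1 h7)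
  rw [h5, map_zero] at he'
  rcases mul_eq_zero.1 he' with h6 | h6
  · exfalso
    rw [map_pow] at h6
    have h8 : algebraMap K[X] F (X - Polynomial.C t) = 0 := by
      by_contra h9
      exact (pow_ne_zero N' h9) h6
    rw [map_eq_zero_iff _ (IsFractionRing.injective K[X] F)] at h8
    exact Polynomial.X_sub_C_ne_zero t h8
  · exact h6

end Pool.Agent.R992.MC
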