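import Pool.Agent.R992.MC.Ser

/-!
# Coverings of the line with one moving simple branch point: set-up
-/

set_option autoImplicit false

namespace Pool.Agent.R992.MC

open Polynomial

section
variable (K F L : Type) [Field K] [Field F] [Field L]
  [Algebra K[X] F] [Algebra F L] [Algebra K[X] L]

/-- `e ∈ F = K(x)` has no pole outside `x = t` and infinity. -/
def InO (t : K) (e : F) : Prop :=
  ∃ (N : ℕ) (P : K[X]), algebraMap K[X] F ((X - C t) ^ N) * e = algebraMap K[X] F P

/-- The data of a covering, its expansions and derivations. -/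
structure Data (m r : ℕ) where
  /-- the derivation of `K` -/
  d : Derivation ℤ K K
  /-- the moving branch point -/
  t : K
  /-- the derivation of `L` extending `d` with `D x = 0` -/
  D : Derivation ℤ L L
  /-- the derivation `d/dx` of `L` -/
  E : Derivation ℤ L L
  /-- the other branch points -/
  b : Fin (r + 1) → K
  /-- the expansions over `t` -/
  θ : Fin (m + 2) → (L →+* LaurentSeries K)
  /-- the expansions over infinity -/
  ψ : Fin (m + 2) → (L →+* LaurentSeries K)
  /-- the functions regular outside `t` and infinity -/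
  A : Subring L
  /-- the `f` such that `f dx` is regular outside `t` and infinity -/
  M : L → Prop

variable {K L}
/-- the product of the `x - b_i` -/
noncomputable def Data.R {m r : ℕ} (S : Data K L m r) : K[X] := ∏ i, (X - C (S.b i))

/-- The differential form `f dx` is regular. -/
structure Data.Regular {m r : ℕ} (S : Data K L m r) (f : L) : Prop where
  /-- outside `t` and infinity -/
  fin : S.M f
  /-- over `t` -/
  at_t : ∀ i, Lo (-1) (S.θ i f)
  /-- over infinity -/
  at_inf : ∀ i, Lo 2 (S.ψ i f)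

/-- What is used of the covering. -/
structure Data.Core {m r : ℕ} (p : ℕ) (S : Data K L m r) : Prop where
  prime : p.Prime
  char : CharP K p
  two : p ≠ 2
  d_t : S.d S.t = 1
  d_b : ∀ i, S.d (S.b i) = 0
  b_inj : Function.Injective S.b
  D_C : ∀ a : K, S.D (algebraMap K[X] L (C a)) = algebraMap K[X] L (C (S.d a))
  D_X : S.D (algebraMap K[X] L X) = 0
  E_C : ∀ a : K, S.E (algebraMap K[X] L (C a)) = 0
  E_X : S.E (algebraMap K[X] L X) = 1
  comm : ∀ z, S.D (S.E z) = S.E (S.D z)
  nil : ∀ z : L, S.D^[p] z = 0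
  θ_P : ∀ i P, S.θ i (algebraMap K[X] L P) = ev (pt S.t) P
  ψ_P : ∀ i P, S.ψ i (algebraMap K[X] L P) = ev inf P
  even : ∀ z (k : ℤ), Even k → (S.θ 1 z).coeff k = (S.θ 0 z).coeff k
  odd : ∀ z (k : ℤ), Odd k → (S.θ 1 z).coeff k = -(S.θ 0 z).coeff k
  unr : ∀ i, i ≠ 0 → i ≠ 1 → ∀ z (k : ℤ), Odd k → (S.θ i z).coeff k = 0
  A_P : ∀ P, algebraMap K[X] L P ∈ S.A
  D_A : ∀ z ∈ S.A, S.D z ∈ S.A
  E_A : ∀ z ∈ S.A, algebraMap K[X] L S.R * S.E z ∈ S.A
  M_R : ∀ f, S.M f → algebraMap K[X] L S.R * f ∈ S.A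
  M_tr : ∀ f, S.M f → ∀ a ∈ S.A, InO K F S.t (Algebra.trace F L (f * a))
  M_D : ∀ f, S.M f → S.M (S.D f)
  M_add : ∀ f g, S.M f → S.M g → S.M (f + g)
  M_C : ∀ (a : K) f, S.M f → S.M (algebraMap K[X] L (C a) * f)
  tr_A : ∀ z ∈ S.A, InO K F S.t (Algebra.trace F L z)
  θ_tr : ∀ z i, S.θ i (algebraMap F L (Algebra.trace F L z)) = ∑ j, S.θ j z
  ψ_tr : ∀ z i, S.ψ i (algebraMap F L (Algebra.trace F L z)) = ∑ j, S.ψ j z
  θE : ∀ i z (k : ℤ), (S.θ i (S.E z)).coeff k = ((k + 2 : ℤ) : K) / 2 * (S.θ i z).coeff (k + 2)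
  θD : ∀ i z (k : ℤ), (S.θ i (S.D z + S.E z)).coeff k = S.d ((S.θ i z).coeff k)
  ψE : ∀ i z (k : ℤ), (S.ψ i (S.E z)).coeff k = ((1 - k : ℤ) : K) * (S.ψ i z).coeff (k - 1)
  ψD : ∀ i z (k : ℤ), (S.ψ i (S.D z)).coeff k = S.d ((S.ψ i z).coeff k)
  big : m + 2 < p
  big' : (m + 2) * (m + 1) * (r - 1) < p

end

section InO
variable {K F L : Type} [Field K] [Field F] [Field L]
  [Algebra K[X] F] [Algebra F L] [Algebra K[X] L]

theorem InO.add {t : K} {z w : F} (hz : InO K F t z) (hw : InO K F t w) : InO K F t (z + w) := by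
  obtain ⟨N, P, hN⟩ := hz
  obtain ⟨M, Q, hM⟩ := hw
  refine ⟨N + M, (X - C t) ^ M * P + (X - C t) ^ N * Q, ?_⟩
  rw [map_add, map_mul, map_mul, ← hN, ← hM, _root_.pow_add, map_mul]
  ring

theorem InO.mul {t : K} {z w : F} (hz : InO K F t z) (hw : InO K F t w) : InO K F t (z * w) := by
  obtain ⟨N, P, hN⟩ := hz
  obtain ⟨M, Q, hM⟩ := hw
  refine ⟨N + M, P * Q, ?_⟩
  rw [map_mul, ← hN, ← hM, _root_.pow_add, map_mul]
  ring

theorem InO.poly (t : K) (P : K[X]) : InO K F t (algebraMap K[X] F P) :=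
  ⟨0, P, by simp⟩

theorem InO.neg {t : K} {z : F} (hz : InO K F t z) : InO K F t (-z) := by
  have := (InO.poly (F := F) t (-1)).mul hz
  simpa using this

theorem InO.sub {t : K} {z w : F} (hz : InO K F t z) (hw : InO K F t w) : InO K F t (z - w) := by
  rw [sub_eq_add_neg]; exact hz.add hw.neg

theorem InO.sum {t : K} {ι : Type} (s : Finset ι) {z : ι → F} (h : ∀ i ∈ s, InO K F t (z i)) :
    InO K F t (∑ i ∈ s, z i) := by
  classical
  induction s using Finset.induction_on with
  | empty => simpa using InO.poly (F := F) t 0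
  | insert a s ha ih =>
    rw [Finset.sum_insert ha]
    exact (h a (Finset.mem_insert_self a s)).add (ih fun i hi => h i (Finset.mem_insert_of_mem hi))

theorem InO.prod {t : K} {ι : Type} (s : Finset ι) {z : ι → F} (h : ∀ i ∈ s, InO K F t (z i)) :
    InO K F t (∏ i ∈ s, z i) := by
  classical
  induction s using Finset.induction_on with
  | empty => simpa using InO.poly (F := F) t 1
  | insert a s ha ih =>
    rw [Finset.prod_insert ha]
    exact (h a (Finset.mem_insert_self a s)).mul (ih fun i hi => h i (Finset.mem_insert_of_mem hi))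

end InO

section der
variable {K F L : Type} [Field K] [Field F] [Field L]
  [Algebra K[X] F] [IsFractionRing K[X] F] [Algebra F L] [Algebra K[X] L] [IsScalarTower K[X] F L]

/-- A derivation which preserves polynomials. -/
theorem der_poly (δ : Derivation ℤ L L) (h1 : ∀ a : K, ∃ a' : K[X],
    δ (algebraMap K[X] L (C a)) = algebraMap K[X] L a')
    (h2 : ∃ a' : K[X], δ (algebraMap K[X] L X) = algebraMap K[X] L a') (P : K[X]) :
    ∃ P' : K[X], δ (algebraMap K[X] L P) = algebraMap K[X] L P' := by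
  induction P using Polynomial.induction_on with
  | C a => exact h1 a
  | add P Q hP hQ =>
    obtain ⟨P', hP⟩ := hP
    obtain ⟨Q', hQ⟩ := hQ
    exact ⟨P' + Q', by rw [map_add, map_add, hP, hQ, map_add]⟩
  | monomial n a ih =>
    obtain ⟨P', hP⟩ := ih
    obtain ⟨Q', hQ⟩ := h2
    refine ⟨X * P' + (C a * X ^ n) * Q', ?_⟩
    rw [pow_succ, ← mul_assoc, map_mul, Derivation.leibniz, hP, hQ]
    simp only [smul_eq_mul, map_add, map_mul]
    ring

/-- A derivation which preserves polynomials preserves `K(x)` and its elements without poles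
outside `t`. -/
theorem der_F (δ : Derivation ℤ L L)
    (h : ∀ P : K[X], ∃ P' : K[X], δ (algebraMap K[X] L P) = algebraMap K[X] L P') (t : K)
    (e : F) : ∃ e' : F, δ (algebraMap F L e) = algebraMap F L e' ∧ (InO K F t e → InO K F t e') := by
  have hinj : Function.Injective (algebraMap F L) := (algebraMap F L).injective
  have htow : ∀ P : K[X], algebraMap F L (algebraMap K[X] F P) = algebraMap K[X] L P :=
    fun P => (IsScalarTower.algebraMap_apply K[X] F L P).symm
  obtain ⟨P, Q, hQ, rfl⟩ : ∃ (P Q : K[X]), Q ≠ 0 ∧ e = algebraMap K[X] F P / algebraMap K[X] F Q := by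
    obtain ⟨P, Q, hQ, he⟩ := IsFractionRing.div_surjective K[X] (K := F) e
    exact ⟨P, Q, nonZeroDivisors.ne_zero hQ, he.symm⟩
  obtain ⟨P', hP⟩ := h P
  obtain ⟨Q', hQ'⟩ := h Q
  have hQF : algebraMap K[X] F Q ≠ 0 := by
    rwa [Ne, map_eq_zero_iff _ (IsFractionRing.injective K[X] F)]
  obtain ⟨e', he'⟩ : ∃ e' : F, e' = (algebraMap K[X] F P' * algebraMap K[X] F Q -
    algebraMap K[X] F P * algebraMap K[X] F Q') / algebraMap K[X] F Q ^ 2 := ⟨_, rfl⟩
  have h1 : δ (algebraMap F L (algebraMap K[X] F P / algebraMap K[X] F Q)) = algebraMap F L e' := by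
    have hQL : algebraMap K[X] L Q ≠ 0 := by
      rw [← htow]; exact (map_ne_zero_iff _ hinj).2 hQF
    obtain ⟨z, hz⟩ : ∃ z, z = algebraMap F L (algebraMap K[X] F P / algebraMap K[X] F Q) := ⟨_, rfl⟩
    have hz' : algebraMap K[X] L Q * z = algebraMap K[X] L P := by
      rw [hz, ← htow, ← htow, ← map_mul, mul_div_cancel₀ _ hQF]
    have h2 := congrArg δ hz'
    rw [Derivation.leibniz, hP, hQ'] at h2
    simp only [smul_eq_mul] at h2
    rw [← hz]
    have h3 : algebraMap F L e' = (algebraMap K[X] L P' * algebraMap K[X] L Q -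
        algebraMap K[X] L P * algebraMap K[X] L Q') / algebraMap K[X] L Q ^ 2 := by
      rw [he', map_div₀, map_sub, map_mul, map_mul, map_pow, htow, htow, htow, htow]
    rw [h3, eq_div_iff (pow_ne_zero 2 hQL), ← hz', ← h2]
    ring
  refine ⟨e', h1, ?_⟩
  rintro ⟨N, G, hG⟩
  obtain ⟨U', hU⟩ := h ((X - C t) ^ N)
  obtain ⟨G', hG'⟩ := h G
  refine ⟨N + N, (X - C t) ^ N * G' - U' * G, ?_⟩
  apply hinj
  have h4 := congrArg (algebraMap F L) hG
  rw [map_mul, htow, htow] at h4
  have h5 := congrArg δ h4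
  rw [Derivation.leibniz, hU, hG', h1] at h5
  simp only [smul_eq_mul] at h5
  rw [map_mul, htow, htow, map_sub, map_mul, map_mul, ← h5, ← h4, _root_.pow_add, map_mul]
  ring

end der

end Pool.Agent.R992.MC
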