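import Pool.Agent.R992.MC.Der

/-!
# Traces as sums over expansions; the separability element
-/

set_option autoImplicit false
set_option linter.unusedSectionVars false

namespace Pool.Agent.R992.MC

open Polynomial

/-- The trace is the sum over any complete list of embeddings. -/
theorem trace_sum {F L E : Type} [Field F] [Field L] [Algebra F L] [Field E] {n : ℕ}
    [FiniteDimensional F L] [Algebra.IsSeparable F L] (hn : Module.finrank F L = n)
    (σ : Fin n → (L →+* E)) (hinj : Function.Injective σ) (ρ : F →+* E)
    (hσ : ∀ i e, σ i (algebraMap F L e) = ρ e) (z : L) :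
    ρ (Algebra.trace F L z) = ∑ i, σ i z := by
  classical
  let _ : Algebra F E := ρ.toAlgebra
  have h1 := trace_eq_sum_embeddings (K := F) (L := L) (AlgebraicClosure E) (x := z)
  let g : Fin n → (L →ₐ[F] AlgebraicClosure E) := fun i =>
    { (algebraMap E (AlgebraicClosure E)).comp (σ i) with
      commutes' := fun e => by
        change algebraMap E (AlgebraicClosure E) (σ i (algebraMap F L e)) = _
        rw [hσ, IsScalarTower.algebraMap_apply F E (AlgebraicClosure E)]
        rfl }
  have hg : Function.Injective g := by
    intro i j hij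
    apply hinj
    ext w
    have h2 := DFunLike.congr_fun hij w
    exact (algebraMap E (AlgebraicClosure E)).injective h2
  have hcard : Fintype.card (L →ₐ[F] AlgebraicClosure E) = n := by
    rw [AlgHom.card, hn]
  have hbij : Function.Bijective g := by
    rw [Fintype.bijective_iff_injective_and_card]
    exact ⟨hg, by rw [Fintype.card_fin, hcard]⟩
  rw [← hbij.sum_comp (fun τ : L →ₐ[F] AlgebraicClosure E => τ z)] at h1
  apply (algebraMap E (AlgebraicClosure E)).injective
  rw [map_sum]
  rw [IsScalarTower.algebraMap_apply F E (AlgebraicClosure E)] at h1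
  exact h1

section sep
variable {F L : Type} [Field F] [Field L] [Algebra F L] [FiniteDimensional F L]
  [Algebra.IsSeparable F L] {n : ℕ}

/-- the Gram matrix of the trace form -/
noncomputable def gram (F : Type) {L : Type} [Field F] [Field L] [Algebra F L] {n : ℕ}
    (z : Fin n → L) : Matrix (Fin n) (Fin n) F :=
  Matrix.of fun i j => Algebra.trace F L (z i * z j)

theorem gram_apply {F L : Type} [Field F] [Field L] [Algebra F L] {n : ℕ}
    (z : Fin n → L) (i j : Fin n) : gram F z i j = Algebra.trace F L (z i * z j) := rfl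

/-- the dual family -/
noncomputable def dual (F : Type) {L : Type} [Field F] [Field L] [Algebra F L] {n : ℕ}
    (z : Fin n → L) (i : Fin n) : L :=
  ∑ j, algebraMap F L ((gram F z)⁻¹ i j) * z j

variable (hn : Module.finrank F L = n) (z : Fin n → L) (hz : (gram F z).det ≠ 0)
include hn hz

theorem li : LinearIndependent F z := by
  rw [Fintype.linearIndependent_iff]
  intro g hg
  have h1 : (gram F z).mulVec g = 0 := by
    ext i
    rw [Matrix.mulVec, dotProduct, Pi.zero_apply]
    have h2 := congrArg (fun y => Algebra.trace F L (z i * y)) hg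
    simp only [mul_zero, map_zero, Finset.mul_sum, map_sum] at h2
    rw [← h2]
    apply Finset.sum_congr rfl
    intro j _
    rw [gram_apply, mul_smul_comm, map_smul, smul_eq_mul, mul_comm]
  have h2 := Matrix.eq_zero_of_mulVec_eq_zero hz h1
  exact fun i => congrFun h2 i

theorem tr_dual (i j : Fin n) : Algebra.trace F L (z j * dual F z i) = if i = j then 1 else 0 := by
  have h1 : ((gram F z)⁻¹ * gram F z) i j = (1 : Matrix (Fin n) (Fin n) F) i j := by
    rw [Matrix.nonsing_inv_mul _ (isUnit_iff_ne_zero.2 hz)]
  rw [Matrix.one_apply, Matrix.mul_apply] at h1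
  rw [← h1, dual, Finset.mul_sum, map_sum]
  apply Finset.sum_congr rfl
  intro k _
  rw [gram_apply, show z j * (algebraMap F L ((gram F z)⁻¹ i k) * z k) =
    ((gram F z)⁻¹ i k) • (z k * z j) by rw [Algebra.smul_def]; ring, map_smul, smul_eq_mul]

theorem expand (y : L) : y = ∑ i, algebraMap F L (Algebra.trace F L (y * dual F z i)) * z i := by
  have hli := li hn z hz
  have hpos : 0 < n := hn ▸ Module.finrank_pos
  have : Nonempty (Fin n) := ⟨⟨0, hpos⟩⟩
  obtain ⟨b, hb⟩ : ∃ b : Module.Basis (Fin n) F L, ⇑b = z := by
    have hc : Fintype.card (Fin n) = Module.finrank F L := by rw [Fintype.card_fin, hn]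
    exact ⟨basisOfLinearIndependentOfCardEqFinrank hli hc, by simp⟩
  have h1 : ∀ i, Algebra.trace F L (y * dual F z i) = b.repr y i := by
    intro i
    conv_lhs => rw [← b.sum_repr y, Finset.sum_mul, map_sum]
    rw [Finset.sum_congr rfl (g := fun j => b.repr y j * (if i = j then 1 else 0))]
    · simp
    · intro j _
      rw [hb, smul_mul_assoc, map_smul, tr_dual hn z hz i j, smul_eq_mul]
  conv_lhs => rw [← b.sum_repr y]
  apply Finset.sum_congr rfl
  intro i _
  rw [h1, Algebra.smul_def, hb]

theorem inv_symm (i j : Fin n) : (gram F z)⁻¹ i j = (gram F z)⁻¹ j i := by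
  have h1 : (gram F z).transpose = gram F z := by
    ext i j
    rw [Matrix.transpose_apply, gram_apply, gram_apply, mul_comm]
  have h2 : ((gram F z)⁻¹).transpose = (gram F z)⁻¹ := by
    rw [Matrix.transpose_nonsing_inv, h1]
  calc (gram F z)⁻¹ i j = ((gram F z)⁻¹).transpose j i := rfl
    _ = (gram F z)⁻¹ j i := by rw [h2]

theorem expand' (y : L) : y = ∑ i, algebraMap F L (Algebra.trace F L (y * z i)) * dual F z i := by
  conv_lhs => rw [expand hn z hz y]
  simp only [dual, Finset.mul_sum, map_sum, Finset.sum_mul]
  rw [Finset.sum_comm]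
  apply Finset.sum_congr rfl
  intro i _
  apply Finset.sum_congr rfl
  intro j _
  rw [show y * (algebraMap F L ((gram F z)⁻¹ j i) * z i) = ((gram F z)⁻¹ j i) • (y * z i) by
    rw [Algebra.smul_def]; ring, map_smul, smul_eq_mul, map_mul, inv_symm hn z hz j i]
  ring

/-- the separability element multiplies to one -/
theorem sep_one : ∑ i, z i * dual F z i = 1 := by
  have hli := li hn z hz
  have hpos : 0 < n := hn ▸ Module.finrank_pos
  have : Nonempty (Fin n) := ⟨⟨0, hpos⟩⟩
  obtain ⟨b, hb⟩ : ∃ b : Module.Basis (Fin n) F L, ⇑b = z := by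
    have hc : Fintype.card (Fin n) = Module.finrank F L := by rw [Fintype.card_fin, hn]
    exact ⟨basisOfLinearIndependentOfCardEqFinrank hli hc, by simp⟩
  have h1 : ∀ (y : L) i, Algebra.trace F L (y * dual F z i) = b.repr y i := by
    intro y i
    conv_lhs => rw [← b.sum_repr y, Finset.sum_mul, map_sum]
    rw [Finset.sum_congr rfl (g := fun j => b.repr y j * (if i = j then 1 else 0))]
    · simp
    · intro j _
      rw [hb, smul_mul_assoc, map_smul, tr_dual hn z hz i j, smul_eq_mul]
  have h2 : ∀ y : L, Algebra.trace F L (y * ∑ i, z i * dual F z i) = Algebra.trace F L y := by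
    intro y
    rw [Algebra.trace_eq_matrix_trace b, Algebra.trace_eq_matrix_trace b y,
      ← Algebra.trace_eq_matrix_trace b, Finset.mul_sum, map_sum, Matrix.trace]
    apply Finset.sum_congr rfl
    intro i _
    rw [Matrix.diag_apply, Algebra.leftMulMatrix_eq_repr_mul, ← h1, hb]
    congr 1
    ring
  have h3 : (∑ i, z i * dual F z i) - 1 = 0 := by
    have h4 : ∀ y : L, Algebra.trace F L (((∑ i, z i * dual F z i) - 1) * y) = 0 := by
      intro y
      rw [mul_comm, mul_sub, map_sub, h2, mul_one, sub_self]
    by_contra hne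
    exact hne ((traceForm_nondegenerate F L).1 _ fun y => by
      rw [Algebra.traceForm_apply]; exact h4 y)
  exact sub_eq_zero.1 h3

/-- **Formula for a derivation on an étale algebra.** -/
theorem der_formula (δ : Derivation ℤ L L) (a : L) :
    δ a = ∑ i, ∑ j, δ (algebraMap F L (Algebra.trace F L (a * dual F z i * z j))) *
      (z i * dual F z j) := by
  have h1 : ∀ i, z i * δ (a * dual F z i) = ∑ j,
      (δ (algebraMap F L (Algebra.trace F L (a * dual F z i * z j))) * (z i * dual F z j) +
      algebraMap F L (Algebra.trace F L (a * z j * dual F z i)) * z i * δ (dual F z j)) := by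
    intro i
    conv_lhs => rw [expand' hn z hz (a * dual F z i), map_sum, Finset.mul_sum]
    apply Finset.sum_congr rfl
    intro j _
    rw [Derivation.leibniz]
    simp only [smul_eq_mul]
    rw [show a * z j * dual F z i = a * dual F z i * z j by ring]
    ring
  have h2 : ∑ i, z i * δ (a * dual F z i) = δ a + a * ∑ i, z i * δ (dual F z i) := by
    have h3 : δ a = δ a * ∑ i, z i * dual F z i := by rw [sep_one hn z hz, mul_one]
    conv_rhs => rw [h3]
    rw [Finset.mul_sum, Finset.mul_sum, ← Finset.sum_add_distrib]
    apply Finset.sum_congr rfl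
    intro i _
    rw [Derivation.leibniz]
    simp only [smul_eq_mul]
    ring
  rw [Finset.sum_congr rfl fun i _ => h1 i] at h2
  simp only [Finset.sum_add_distrib] at h2
  have h4 : ∑ i, ∑ j, algebraMap F L (Algebra.trace F L (a * z j * dual F z i)) * z i *
      δ (dual F z j) = a * ∑ i, z i * δ (dual F z i) := by
    rw [Finset.sum_comm, Finset.mul_sum]
    apply Finset.sum_congr rfl
    intro j _
    rw [← Finset.sum_mul, ← expand hn z hz (a * z j)]
    ring
  rw [h4] at h2
  exact (add_right_cancel h2).symm

end sep

end Pool.Agent.R992.MC
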